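import Pool.Agent.Helper95.VIS.Mn

/-! MINIMAL CARRIERS OF COUNTABLY MANY FAMILIES (all degrees): one literal partition which carries optimal K-forms of all
families and which is known to every label which knows the minimal carrier of every family. -/

set_option autoImplicit false

namespace Pool.Agent.Helper95.VIS

open Finset Filter Topology Matrix Pool.Agent.Helper69.RK Pool.Agent.Helper31.EC Pool.Agent.Helper40.EL
open Pool.Agent.Helper33.LIT Pool.Agent.Helper89.LX Pool.Agent.Helper66.NJ Pool.Agent.Helper49.KL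
open Pool.Agent.Helper95.LF (PdM NearM)

noncomputable section

variable {S : Sp} {R : ∀ k, Setoid (S.F k).Ω} {κ : Type} {A : κ → Part S}

/-- knowledge of the finite joins -/
theorem fjn_known {X : ℕ → ∀ k, Setoid (S.F k).Ω} {l : Lab S}
    (hX : ∀ j, Nul S (fun k => h ((l k).p.map (fc (X j k))) (l k).v)) (j : ℕ) :
    Nul S (fun k => h ((l k).p.map (fc (fjn X j k))) (l k).v) := by
  induction j with
  | zero => exact hX 0
  | succ j ih =>
    refine (ih.add (hX (j + 1))).of_le (Eventually.of_forall fun k => h_nonneg _ _)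
      (Eventually.of_forall fun k => ?_)
    have e : (fc (fjn X (j + 1) k) : FL (S.F k)) = fc (fjn X j k) ⊔ fc (X (j + 1) k) := fc_inf _ _
    rw [e, (l k).p.map_sup]
    exact h_sup_le _ _ _

theorem fjn_anti (X : ℕ → ∀ k, Setoid (S.F k).Ω) (k : ℕ) {j m : ℕ} (h : j ≤ m) : fjn X m k ≤ fjn X j k := by
  induction m with
  | zero =>
    have : j = 0 := by omega
    subst this
    exact le_rfl
  | succ m ih =>
    rcases Nat.lt_or_ge j (m + 1) with h1 | h1
    · exact inf_le_left.trans (ih (by omega))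
    · have : j = m + 1 := by omega
      subst this
      exact le_rfl

/-- SLOW JOIN of countably many literal labels, with the least information -/
theorem exists_join_min [Countable κ] (X : ℕ → ∀ k, Setoid (S.F k).Ω)
    (hR : ∀ j, ∀ᶠ k in UF, R k ⊓ (S.F k).Z ≤ X j k) (hA : ∀ j, (Lab.ofZ (X j)).DMf A) {i₀ : κ} (hB : (A i₀).Bd) :
    ∃ W : ∀ k, Setoid (S.F k).Ω, (∀ᶠ k in UF, R k ⊓ (S.F k).Z ≤ W k) ∧ (Lab.ofZ W).DMf A ∧
      (∀ j, ∀ᶠ k in UF, W k ≤ X j k) ∧ ∀ l : Lab S,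
        (∀ j, Nul S (fun k => h ((l k).p.map (fc (X j k))) (l k).v)) →
          Nul S (fun k => h ((l k).p.map (fc (W k))) (l k).v) := by
  obtain ⟨c, hc⟩ := exists_injective_nat κ
  have hfin : ∀ j : ℕ, {i : κ | c i ≤ j}.Finite := by
    intro j
    apply Set.Finite.of_finite_image (f := c) _ hc.injOn
    apply (Set.finite_Iic j).subset
    rintro x ⟨i, hi, rfl⟩
    exact hi
  have hP : ∀ j i, PLe (fun k => fc (fjn X j k)) (A i) := fun j i =>
    fjn_ple (fun j => (Lab.ofZ_DMf (X j)).mp (hA j) i) j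
  -- informations of the finite joins
  obtain ⟨C, hC⟩ := hB
  have hbd : ∀ j, ∀ᶠ k in UF, H (fc (fjn X j k) : FL (S.F k)) / (S.F k).n ≤ C + 1 := by
    intro j
    filter_upwards [hC, (hP j i₀).eventually (gt_mem_nhds one_pos)] with k a b
    have hn := (S.F k).pos
    have h1 : H (fc (fjn X j k) : FL (S.F k)) ≤ H (A i₀ k) + h (fc (fjn X j k)) (A i₀ k) := by
      rw [← H_chain]
      exact H_mono le_sup_right
    rw [div_lt_one hn] at b
    rw [div_le_iff₀ hn]
    have a2 : H (A i₀ k) ≤ C * (S.F k).n := by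
      have := (abs_le.mp a).2
      rwa [div_le_iff₀ hn] at this
    linarith
  have hUB : ∀ j, UB (fun k => H (fc (fjn X j k) : FL (S.F k)) / (S.F k).n) := fun j =>
    UB_of_nonneg_le (Eventually.of_forall fun k => div_nonneg (H_nonneg _) (S.F k).pos.le) (hbd j)
  set i : ℕ → ℝ := fun j => ul (fun k => H (fc (fjn X j k) : FL (S.F k)) / (S.F k).n) with hi
  have hib : BddAbove (Set.range i) := by
    refine ⟨C + 1, ?_⟩
    rintro r ⟨j, rfl⟩
    exact ul_le_const (hUB j) (hbd j)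
  set I0 : ℝ := ⨆ j, i j with hI0
  have hile : ∀ j, i j ≤ I0 := fun j => le_ciSup hib j
  have hG : ∀ j : ℕ, ∀ᶠ k in UF, (∀ i ∈ {i : κ | c i ≤ j}, h (fc (fjn X j k)) (A i k) / (S.F k).n ≤
      1 / ((j : ℝ) + 1)) ∧ R k ⊓ (S.F k).Z ≤ fjn X j k ∧
      H (fc (fjn X j k) : FL (S.F k)) / (S.F k).n ≤ I0 + 1 / ((j : ℝ) + 1) := by
    intro j
    have h5 : (0 : ℝ) < 1 / ((j : ℝ) + 1) := by positivity
    refine Filter.Eventually.and ?_ (Filter.Eventually.and ?_ ?_)
    · rw [Filter.eventually_all_finite (hfin j)]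
      intro i _
      filter_upwards [(hP j i).eventually (gt_mem_nhds h5)] with k hk using hk.le
    · exact fjn_lit hR j
    · have h6 : i j < I0 + 1 / ((j : ℝ) + 1) := by linarith [hile j]
      filter_upwards [(ul_tendsto (hUB j)).eventually (gt_mem_nhds h6)] with k hk using hk.le
  obtain ⟨W, J, hJ, hW, hG'⟩ := dia' (X := fun k => Setoid (S.F k).Ω) (fun j k => fjn X j k) (fun j k x =>
      (∀ i ∈ {i : κ | c i ≤ j}, h (fc x) (A i k) / (S.F k).n ≤ 1 / ((j : ℝ) + 1)) ∧ R k ⊓ (S.F k).Z ≤ x ∧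
      H (fc x : FL (S.F k)) / (S.F k).n ≤ I0 + 1 / ((j : ℝ) + 1)) hG
  have h0 : Tendsto (fun k => 1 / ((J k : ℝ) + 1)) UF (𝓝 0) := tendsto_one_div_add_atTop_nhds_zero_nat.comp hJ
  have hWf : ∀ j, ∀ᶠ k in UF, W k ≤ fjn X j k := fun j => by
    filter_upwards [hJ.eventually (eventually_ge_atTop j)] with k hk
    rw [hW k]
    exact fjn_anti X k hk
  refine ⟨W, by filter_upwards [hG'] with k hk using hk.2.1, (Lab.ofZ_DMf W).mpr fun i => ?_, fun j => ?_,
    fun l hl => ?_⟩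
  · refine tendsto_of_tendsto_of_tendsto_of_le_of_le' tendsto_const_nhds h0 ?_ ?_
    · exact Eventually.of_forall fun k => div_nonneg (h_nonneg _ _) (S.F k).pos.le
    · filter_upwards [hG', hJ.eventually (eventually_ge_atTop (c i))] with k hk h5 using hk.1 i h5
  · filter_upwards [hWf j] with k hk
    exact hk.trans (fjn_le X k j j le_rfl)
  · show Tendsto _ _ _
    rw [Metric.tendsto_nhds]
    intro ε hε
    obtain ⟨j, hj⟩ : ∃ j, I0 - ε / 4 < i j := exists_lt_of_lt_ciSup (by linarith)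
    have h4 : 0 < ε / 4 := by linarith
    filter_upwards [hG', h0.eventually (gt_mem_nhds h4), hWf j,
      (ul_tendsto (hUB j)).eventually (lt_mem_nhds (show i j - ε / 4 < i j by linarith)),
      (fjn_known hl j).eventually (gt_mem_nhds h4)] with k a b d e f
    have hn := (S.F k).pos
    rw [Real.dist_eq, sub_zero, abs_of_nonneg (div_nonneg (h_nonneg _ _) hn.le)]
    have h5 := h_triangle' ((l k).p.map (fc (W k))) ((l k).p.map (fc (fjn X j k))) ((l k).v)
    rw [(l k).p.h_map] at h5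
    have h6 : h (fc (W k)) (fc (fjn X j k)) = H (fc (W k) : FL (S.F k)) - H (fc (fjn X j k) : FL (S.F k)) := by
      have h7 : (fc (fjn X j k) : FL (S.F k)) ≤ fc (W k) := fc_mono d
      show H (fc (W k) ⊔ fc (fjn X j k) : FL (S.F k)) - _ = _
      rw [sup_eq_left.mpr h7]
    rw [h6] at h5
    have h8 := div_le_div_of_nonneg_right h5 hn.le
    rw [add_div, sub_div] at h8
    have h9 := a.2.2
    linarith

/-! ### all families -/

/-- MINIMAL CARRIERS of countably many families: `X` is literal, carries optimal K-forms of all families, and every label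
which knows the minimal carrier of every family knows `X` -/
structure MinA {α : Type} {J : α → Type} [∀ a, Fintype (J a)] [∀ a, DecidableEq (J a)] (Φ : ∀ a, Gau S (J a))
    (R : ∀ k, Setoid (S.F k).Ω) (A : κ → Part S) (X : ∀ k, Setoid (S.F k).Ω) : Prop where
  lit : ∀ᶠ k in UF, R k ⊓ (S.F k).Z ≤ X k
  dmf : (Lab.ofZ X).DMf A
  car : ∀ a, ∃ G : ∀ k, (S.F k).Ω → Matrix (J a) (J a) ℝ, (∀ᶠ k in UF, Kn1 (X k) (G k)) ∧
    (Φ a).OptfK (LC.kz fun k => fc (R k)) A (fun k => zFD (X k) (G k))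
  min : ∀ l : Lab S, (∀ a, ∃ X' : ∀ k, Setoid (S.F k).Ω, MinC (Φ a) R A X' ∧
    Nul S (fun k => h ((l k).p.map (fc (X' k))) (l k).v)) → Nul S (fun k => h ((l k).p.map (fc (X k))) (l k).v)

section
variable {α : Type} {J : α → Type} [∀ a, Fintype (J a)] [∀ a, DecidableEq (J a)] {Φ : ∀ a, Gau S (J a)}
  {X : ∀ k, Setoid (S.F k).Ω}

/-- every label which carries optimal forms of all families knows the minimal carrier -/
theorem MinA.knows [Finite κ] (hX : MinA Φ R A X) {l : Lab S}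
    (hl : ∀ a, ∃ y : ∀ k, FD (S.F k) (J a), (∀ k, (y k).l = l k) ∧ (Φ a).OptfK (LC.kz fun k => fc (R k)) A y) :
    Nul S (fun k => h ((l k).p.map (fc (X k))) (l k).v) := by
  apply hX.min l
  intro a
  obtain ⟨y, hy, ho⟩ := hl a
  obtain ⟨X', hX'⟩ := exists_minC (Φ a) A R
  refine ⟨X', hX', ?_⟩
  have h1 := hX'.min (Φ a) ho
  have e : (fun k => (y k).l) = l := funext hy
  subst e
  exact h1

/-- every partition which knows the minimal carriers of all families knows the minimal carrier -/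
theorem MinA.part [Finite κ] (hX : MinA Φ R A X) {B : Part S}
    (hB : ∀ a, ∃ X' : ∀ k, Setoid (S.F k).Ω, MinC (Φ a) R A X' ∧ Nul S (fun k => h (fc (X' k)) (B k))) :
    Nul S (fun k => h (fc (X k)) (B k)) := by
  have hr : ∀ k, ∃ Y : Setoid (S.F k).Ω, (fc Y : FL (S.F k)) = B k := fun k => by
    induction B k using fc_ind with
    | _ Y => exact ⟨Y, rfl⟩
  choose Y hY using hr
  have e : B = fun k => fc (Y k) := funext fun k => (hY k).symm
  subst e
  exact hX.min (Lab.ofZ Y) hB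

/-- unique up to `o(n)` bits -/
theorem MinA.uniq [Finite κ] (hX : MinA Φ R A X) {X' : ∀ k, Setoid (S.F k).Ω} (hX' : MinA Φ R A X') :
    Nul S (fun k => h (fc (X k)) (fc (X' k))) := by
  have h1 := hX.knows (l := Lab.ofZ X') fun a => by
    obtain ⟨G, -, h2⟩ := hX'.car a
    exact ⟨_, fun k => rfl, h2⟩
  exact h1

theorem MinC.dmf {ι : Type} [Fintype ι] [DecidableEq ι] [Finite κ] {Ψ : Gau S ι} (hX : MinC Ψ R A X) :
    (Lab.ofZ X).DMf A := by
  obtain ⟨G, -, h2, -⟩ := hX.car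
  have h3 := Gau.AdfK.dm Ψ h2.1
  exact h3

theorem MinC.zfd {ι : Type} [Fintype ι] [DecidableEq ι] [Finite κ] {Ψ : Gau S ι} (hX : MinC Ψ R A X)
    {W : ∀ k, Setoid (S.F k).Ω} (h1 : ∀ᶠ k in UF, W k ≤ X k) (h2 : ∀ᶠ k in UF, R k ⊓ (S.F k).Z ≤ W k)
    (h3 : (Lab.ofZ W).DMf A) : ∃ G : ∀ k, (S.F k).Ω → Matrix ι ι ℝ, (∀ᶠ k in UF, Kn1 (W k) (G k)) ∧
      Ψ.OptfK (LC.kz fun k => fc (R k)) A (fun k => zFD (W k) (G k)) := by
  obtain ⟨G, g1, g2, -⟩ := hX.car
  exact ⟨G, by filter_upwards [g1, h1] with k a b using a.mono b, opt_zFD Ψ g1 g2 h1 h2 h3⟩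

/-- MINIMAL CARRIERS EXIST -/
theorem exists_minA [Finite κ] [Countable α] [Nonempty α] (A : κ → Part S) {i₀ : κ} (hB : (A i₀).Bd)
    (R : ∀ k, Setoid (S.F k).Ω) : ∃ X : ∀ k, Setoid (S.F k).Ω, MinA Φ R A X := by
  obtain ⟨f, hf⟩ := exists_surjective_nat α
  choose Z hZ using fun a => exists_minC (Φ a) A R
  have hD : ∀ j, (Lab.ofZ (Z (f j))).DMf A := fun j => (hZ (f j)).dmf
  obtain ⟨W, w1, w2, w3, w4⟩ := exists_join_min (A := A) (fun j => Z (f j)) (fun j => (hZ (f j)).lit) hD hB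
  refine ⟨W, w1, w2, fun a => ?_, fun l hl => w4 l fun j => ?_⟩
  · obtain ⟨j, rfl⟩ := hf a
    exact (hZ (f j)).zfd (w3 j) w1 w2
  · obtain ⟨X', h1, h2⟩ := hl (f j)
    have h3 := (hZ (f j)).uniq (Φ (f j)) h1
    refine (h3.add h2).of_le (Eventually.of_forall fun k => h_nonneg _ _) (Eventually.of_forall fun k => ?_)
    have h5 := h_triangle' ((l k).p.map (fc (Z (f j) k))) ((l k).p.map (fc (X' k))) ((l k).v)
    rw [(l k).p.h_map] at h5
    exact h5

end

end

end Pool.Agent.Helper95.VIS
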