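import Pool.Agent.Helper95.VIS.Mn
import Pool.Agent.Helper89.RAK.Cmp

/-! VISIBLE CARRIERS: a form of a label without leak at the visible partition which has the score of the optimal K-form
makes the minimal carrier visible (up to `o(n)` bits). -/

set_option autoImplicit false

namespace Pool.Agent.Helper95.VIS

open Finset Filter Topology Matrix Pool.Agent.Helper69.RK Pool.Agent.Helper31.EC Pool.Agent.Helper40.EL
open Pool.Agent.Helper33.LIT Pool.Agent.Helper89.LX Pool.Agent.Helper66.NJ Pool.Agent.Helper49.KL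
open Pool.Agent.Helper89.RAK (DomJ)
open Pool.Agent.Helper59.EV (sum_split_le)
open Pool.Agent.Helper95.LF (PdM NearM)

noncomputable section

/-! ### labels without leak -/

/-- a partition known to a label is known to `y` up to the leak of the label at `y` -/
theorem h_le_leak {F : FSp} (l : FLab F) (x y : FL F) : h x y ≤ l.leak y + h (l.p.map x) l.v := by
  have h1 := I_eq' l.v (l.p.map x) (l.p.map y)
  have h2 : I l.v (l.p.map x) (l.p.map y) ≤ l.leak y := I_mono_right ((l.p.map_le_top x).trans le_sup_left)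
  have h3 : h (l.p.map x) (l.v ⊔ l.p.map y) ≤ h (l.p.map x) l.v := h_anti le_sup_left
  rw [l.p.h_map] at h1
  linarith

variable {S : Sp}

/-- A PARTITION KNOWN TO A LABEL WITHOUT LEAK AT `B` IS KNOWN TO `B` -/
theorem known_of_leak {l : Lab S} {X B : Part S} (h1 : Nul S (fun k => h ((l k).p.map (X k)) (l k).v))
    (h2 : Nul S (fun k => (l k).leak (B k))) : Nul S (fun k => h (X k) (B k)) :=
  (h2.add h1).of_le (Eventually.of_forall fun k => h_nonneg _ _)
    (Eventually.of_forall fun k => h_le_leak (l k) (X k) (B k))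

variable {ι : Type} [Fintype ι] [DecidableEq ι] (Φ : Gau S ι) {κ κ' : Type} {A : κ → Part S} {A' : κ' → Part S}

/-! ### scores -/

/-- a form which dominates another one has a larger score -/
theorem domJ_sc_le {x y : ∀ k, FD (S.F k) ι} (hd : DomJ x y) (hx : Φ.Adf A x) (hy : Φ.Adf A' y) :
    ul (fun k => (y k).sc / (S.F k).n) ≤ ul (fun k => (x k).sc / (S.F k).n) := by
  have hUx := Φ.sc_UBf hx
  have hUy := Φ.sc_UBf hy
  have hC0 := Φ.C0
  set m : ℝ := (Fintype.card ι : ℝ) with hm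
  have hm0 : 0 ≤ m := Nat.cast_nonneg _
  suffices hs : ∀ e : ℝ, 0 < e → ul (fun k => (y k).sc / (S.F k).n) ≤ ul (fun k => (x k).sc / (S.F k).n) + e * m by
    apply le_of_forall_pos_le_add
    intro ε hε
    have h3 := hs (ε / (m + 1)) (by positivity)
    have h4 : ε / (m + 1) * m ≤ ε := by
      rw [div_mul_eq_mul_div, div_le_iff₀ (by positivity)]
      nlinarith
    linarith
  intro e he
  have hdom := hd e he
  have hle : ∀ᶠ k in UF, (y k).sc / (S.F k).n ≤ (x k).sc / (S.F k).n + (e * m + m * (Φ.C + 1) *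
      (((x k).jj (y k)).l.T.pb (fun w =>
        ¬ ∀ v, qf (((x k).jj (y k)).g' w) v ≤ 2 ^ (e * (S.F k).n) * qf (((x k).jj (y k)).g w) v))) := by
    filter_upwards [hx 1 one_pos, hy 1 one_pos] with k b3 b4
    have hn := (S.F k).pos
    have e1 : (y k).sc = ∑ w, ((x k).jj (y k)).l.T.μ w *
        Real.logb 2 ((y k).g (((x k).l.am (y k).l).p2.π w)).det :=
      (sum_push ((x k).l.am (y k).l).p2 (fun ω => Real.logb 2 ((y k).g ω).det)).symm
    have e2 : (x k).sc = ∑ w, ((x k).jj (y k)).l.T.μ w *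
        Real.logb 2 ((x k).g (((x k).l.am (y k).l).p1.π w)).det :=
      (sum_push ((x k).l.am (y k).l).p1 (fun ω => Real.logb 2 ((x k).g ω).det)).symm
    have h1 := sum_split_le (F := ((x k).jj (y k)).l.T)
      (fun w => Real.logb 2 ((y k).g (((x k).l.am (y k).l).p2.π w)).det -
        Real.logb 2 ((x k).g (((x k).l.am (y k).l).p1.π w)).det)
      (fun w => ∀ v, qf (((x k).jj (y k)).g' w) v ≤ 2 ^ (e * (S.F k).n) * qf (((x k).jj (y k)).g w) v)
      (e * m * (S.F k).n) (m * (Φ.C + 1) * (S.F k).n) (by positivity) (by positivity) (by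
        intro w hw hE
        have c1 := (b3.2.1 _ (((x k).l.am (y k).l).p1.supp w hw)).1
        have c2 := (b4.2.1 _ (((x k).l.am (y k).l).p2.supp w hw)).1
        have h2 := Pool.Agent.Helper95.LF.det_le_pow (cpd_pdM c1) (cpd_pdM c2)
          (K := 2 ^ (e * (S.F k).n)) (by positivity) hE
        have d1 : 0 < ((x k).g (((x k).l.am (y k).l).p1.π w)).det := zero_lt_one.trans_le c1.one_le
        have d2 : 0 < ((y k).g (((x k).l.am (y k).l).p2.π w)).det := zero_lt_one.trans_le c2.one_le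
        have h5 := Real.logb_le_logb_of_le (b := 2) (by norm_num) d2 h2
        rw [Real.logb_mul (by positivity) d1.ne', Real.logb_pow, Real.logb_rpow (by norm_num) (by norm_num)] at h5
        have h6 : m * (e * (S.F k).n) = e * m * (S.F k).n := by ring
        rw [← hm, h6] at h5
        linarith) (by
        intro w hw
        have c1 := (b3.2.1 _ (((x k).l.am (y k).l).p1.supp w hw)).1
        have c2 := (b4.2.1 _ (((x k).l.am (y k).l).p2.supp w hw)).1
        have h1 := logdet_nonneg c1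
        have h2 := logdet_le (Φ.one_le_cp k) c2
        rw [Φ.logb_cp] at h2
        have h6 : m * ((Φ.C + 1) * (S.F k).n) = m * (Φ.C + 1) * (S.F k).n := by ring
        rw [← hm, h6] at h2
        linarith)
    have e3 : ∑ w, ((x k).jj (y k)).l.T.μ w *
        (Real.logb 2 ((y k).g (((x k).l.am (y k).l).p2.π w)).det -
        Real.logb 2 ((x k).g (((x k).l.am (y k).l).p1.π w)).det) = (y k).sc - (x k).sc := by
      rw [e1, e2, ← Finset.sum_sub_distrib]
      exact Finset.sum_congr rfl fun w _ => by ring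
    have h2 : ∑ w, ((x k).jj (y k)).l.T.μ w *
        (Real.logb 2 ((y k).g (((x k).l.am (y k).l).p2.π w)).det -
        Real.logb 2 ((x k).g (((x k).l.am (y k).l).p1.π w)).det) ≤
        e * m * (S.F k).n + m * (Φ.C + 1) * (S.F k).n * (((x k).jj (y k)).l.T.pb (fun w =>
      ¬ ∀ v, qf (((x k).jj (y k)).g' w) v ≤ 2 ^ (e * (S.F k).n) * qf (((x k).jj (y k)).g w) v)) := h1
    rw [e3] at h2
    rw [div_add' _ _ _ hn.ne', div_le_div_iff_of_pos_right hn]
    linarith
  have t1 := ul_tendsto hUx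
  have t2 := ul_tendsto hUy
  have t3 := t1.add ((hdom.const_mul (m * (Φ.C + 1))).const_add (e * m))
  rw [mul_zero, add_zero] at t3
  exact le_of_tendsto_of_tendsto t2 t3 hle

/-! ### changes of the conditions -/

/-- finer conditions -/
theorem adf_cond {x : ∀ k, FD (S.F k) ι} (hx : Φ.Adf A x) (h : ∀ᶠ k in UF, ∀ j, ∃ i, A i k ≤ A' j k) :
    Φ.Adf A' x := by
  intro η hη
  filter_upwards [hx η hη, h] with k h1 h2
  refine ⟨fun j => ?_, h1.2⟩
  obtain ⟨i, hi⟩ := h2 j
  exact ((x k).l.leak_anti hi).trans (h1.1 i)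

/-- finer conditions, exact K-labels -/
theorem adfK_cond {B B' : Part S} {x : ∀ k, FD (S.F k) ι} (hx : Φ.AdfK (LC.kz B) A x)
    (h : ∀ᶠ k in UF, ∀ j, ∃ i, A i k ≤ A' j k) (hB : ∀ᶠ k in UF, B k ≤ B' k) : Φ.AdfK (LC.kz B') A' x :=
  ⟨adf_cond Φ hx.1 h, LC.kz_mono hB hx.2⟩

/-! ### visible carriers -/

variable {R : ∀ k, Setoid (S.F k).Ω} {X : ∀ k, Setoid (S.F k).Ω}

/-- VISO, one object: the label of an optimal form has no leak at `B` -/
theorem MinC.vis (hX : MinC Φ R A X) {y : ∀ k, FD (S.F k) ι} (hy : Φ.OptfK (LC.kz fun k => fc (R k)) A y)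
    {B : Part S} (hB : Nul S (fun k => (y k).l.leak (B k))) : Nul S (fun k => h (fc (X k)) (B k)) :=
  known_of_leak (l := fun k => (y k).l) (hX.min Φ hy) hB

/-- VISO, one object: a form of a label which is exact at the coarser partition `B`, score at least the optimal one -/
theorem MinC.vis_of_sc (hX : MinC Φ R A X) {x y : ∀ k, FD (S.F k) ι} {B : Part S}
    (hy : Φ.AdfK (LC.kz B) A' y) (hA : ∀ᶠ k in UF, ∀ j, ∃ i, A' i k ≤ A j k) (hR : ∀ᶠ k in UF, B k ≤ fc (R k))
    (hx : Φ.OptfK (LC.kz fun k => fc (R k)) A x)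
    (hs : ul (fun k => (x k).sc / (S.F k).n) ≤ ul (fun k => (y k).sc / (S.F k).n)) :
    Φ.OptfK (LC.kz fun k => fc (R k)) A y ∧ Nul S (fun k => h (fc (X k)) (B k)) := by
  have h1 : Φ.OptfK (LC.kz fun k => fc (R k)) A y :=
    ⟨adfK_cond Φ hy hA hR, fun z hz => (hx.2 z hz).trans hs⟩
  exact ⟨h1, hX.vis Φ h1 (LC.kz_nul hy.2)⟩

/-- the same, the form dominates the optimal form -/
theorem MinC.vis_of_dom (hX : MinC Φ R A X) {x y : ∀ k, FD (S.F k) ι} {B : Part S}
    (hy : Φ.AdfK (LC.kz B) A' y) (hA : ∀ᶠ k in UF, ∀ j, ∃ i, A' i k ≤ A j k) (hR : ∀ᶠ k in UF, B k ≤ fc (R k))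
    (hx : Φ.OptfK (LC.kz fun k => fc (R k)) A x) (hd : DomJ y x) :
    Φ.OptfK (LC.kz fun k => fc (R k)) A y ∧ Nul S (fun k => h (fc (X k)) (B k)) :=
  hX.vis_of_sc Φ hy hA hR hx (domJ_sc_le Φ hd hy.1 hx.1.1)

end

end Pool.Agent.Helper95.VIS
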