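import Pool.Agent.Helper95.VIS.Mc

/-! MINIMAL CARRIERS, part 2: existence, minimality, uniqueness, labels without leak. -/

set_option autoImplicit false

namespace Pool.Agent.Helper95.VIS

open Finset Filter Topology Matrix Pool.Agent.Helper69.RK Pool.Agent.Helper31.EC Pool.Agent.Helper40.EL
open Pool.Agent.Helper33.LIT Pool.Agent.Helper89.LX Pool.Agent.Helper66.NJ Pool.Agent.Helper49.KL
open Pool.Agent.Helper95.LF (PdM NearM)

noncomputable section

variable {ι : Type} [Fintype ι] [DecidableEq ι] {S : Sp} (Φ : Gau S ι) {κ : Type} {C : LC S} {A : κ → Part S}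

omit [DecidableEq ι] in
/-- two one-sided comparisons -/
theorem near_of_two {P Q : Matrix ι ι ℝ} (hP : Psd P) (hQ : Psd Q) {a : ℝ} (ha : 0 ≤ a)
    (h1 : ∀ v, qf P v ≤ 2 ^ a * qf Q v) (h2 : ∀ v, qf Q v ≤ 2 ^ a * qf P v) : NearM a P Q := by
  have h3 : (2 : ℝ) ^ a ≤ Real.exp a := by
    rw [Real.rpow_def_of_pos (by norm_num)]
    apply Real.exp_le_exp.mpr
    have := Real.log_two_lt_d9
    nlinarith
  exact ⟨fun v => (h1 v).trans (mul_le_mul_of_nonneg_right h3 (hQ.2 v)),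
    fun v => (h2 v).trans (mul_le_mul_of_nonneg_right h3 (hP.2 v))⟩

omit [DecidableEq ι] in
theorem near_mono {P Q : Matrix ι ι ℝ} {a b : ℝ} (h : NearM a P Q) (hab : a ≤ b) (hP : PdM P) (hQ : PdM Q) :
    NearM b P Q :=
  ⟨fun v => (h.1 v).trans (mul_le_mul_of_nonneg_right (Real.exp_le_exp.mpr hab) (hQ.nonneg v)),
    fun v => (h.2 v).trans (mul_le_mul_of_nonneg_right (Real.exp_le_exp.mpr hab) (hP.nonneg v))⟩

theorem pb_zero {F : FSp} {E : F.Ω → Prop} (h : ∀ ω, F.μ ω ≠ 0 → ¬ E ω) : F.pb E = 0 := by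
  unfold FSp.pb mass
  apply Finset.sum_eq_zero
  intro ω _
  by_cases hω : F.μ ω = 0
  · unfold res
    split_ifs
    · exact hω
    · rfl
  · exact res_neg _ _ _ (h ω hω)

/-- a literal optimal form and an optimal form of any other label are typically comparable -/
theorem opt_cmp {W : ∀ k, Setoid (S.F k).Ω} {G : ∀ k, (S.F k).Ω → Matrix ι ι ℝ}
    (hG : ∀ᶠ k in UF, Kn1 (W k) (G k)) (hx : Φ.OptfK C A (fun k => zFD (W k) (G k)))
    {y : ∀ k, FD (S.F k) ι} (hy : Φ.OptfK C A y) : Cmp G y := by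
  intro e he
  have d1 := Gau.OptfK.dom Φ hx hy.1 e he
  have d2 := dom_swap Φ hx.1 hy e he
  have d3 := d1.add d2
  rw [add_zero] at d3
  refine tendsto_of_tendsto_of_tendsto_of_le_of_le' tendsto_const_nhds d3
    (Eventually.of_forall fun k => (y k).l.T.pb_nonneg _) ?_
  filter_upwards [hG, (hx.1.1 1 one_pos), (hy.1.1 1 one_pos)] with k h1 h2 h3
  have hn := (S.F k).pos
  have h4 := pb_push ((zFD (W k) (G k)).l.am (y k).l).p2
    (fun ω => ¬ NearM (e * (S.F k).n) (G k ((y k).l.p.π ω)) ((y k).g ω))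
  rw [← h4]
  refine le_trans (FSp.pb_mono _ (E' := fun w : ((zFD (W k) (G k)).l.am (y k).l).sp.Ω =>
    (¬ ∀ v, qf (((zFD (W k) (G k)).jj (y k)).g' w) v ≤
      2 ^ (e * (S.F k).n) * qf (((zFD (W k) (G k)).jj (y k)).g w) v) ∨
    (¬ ∀ v, qf (((zFD (W k) (G k)).jj (y k)).g w) v ≤
      2 ^ (e * (S.F k).n) * qf (((zFD (W k) (G k)).jj (y k)).g' w) v)) ?_) (pb_or _ _ _)
  intro w hw h5
  by_contra hc
  rw [not_or, not_not, not_not] at hc
  apply h5
  have e1 : (zFD (W k) (G k)).l.p.π (((zFD (W k) (G k)).l.am (y k).l).p1.π w) =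
      (y k).l.p.π (((zFD (W k) (G k)).l.am (y k).l).p2.π w) := (zFD (W k) (G k)).jj_supp (y k) w hw
  have e2 : ((zFD (W k) (G k)).jj (y k)).g w = G k ((y k).l.p.π (((zFD (W k) (G k)).l.am (y k).l).p2.π w)) := by
    rw [← e1]
    show (zFD (W k) (G k)).g (((zFD (W k) (G k)).l.am (y k).l).p1.π w) = _
    rw [zFD_g h1]
    rfl
  have c1 : Cpd (Φ.cp k) (((zFD (W k) (G k)).jj (y k)).g w) :=
    (h2.2.1 _ (((zFD (W k) (G k)).l.am (y k).l).p1.supp w hw)).1
  have c2 : Cpd (Φ.cp k) (((zFD (W k) (G k)).jj (y k)).g' w) :=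
    (h3.2.1 _ (((zFD (W k) (G k)).l.am (y k).l).p2.supp w hw)).1
  have h6 := near_of_two c1.psd c2.psd (mul_nonneg he.le hn.le) hc.2 hc.1
  rw [e2] at h6
  exact h6

/-- every label which carries an optimal form knows the rounding of a literal optimal form -/
theorem opt_knows {W : ∀ k, Setoid (S.F k).Ω} {G : ∀ k, (S.F k).Ω → Matrix ι ι ℝ}
    (hG : ∀ᶠ k in UF, Kn1 (W k) (G k)) (hx : Φ.OptfK C A (fun k => zFD (W k) (G k)))
    {y : ∀ k, FD (S.F k) ι} (hy : Φ.OptfK C A y) :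
    Nul S (fun k => h (fc (Setoid.ker fun ω => rdm (S.F k).n (G k ((y k).l.p.π ω)))) ((y k).l.v)) := by
  apply knows (c := Φ.C + 1) (by linarith [Φ.C0])
  · filter_upwards [hG, (hx.1.1 1 one_pos)] with k h1 h2 ω hω
    have h3 := (h2.2.1 ω hω).1
    have e : (zFD (W k) (G k)).g = G k := zFD_g h1
    rw [e] at h3
    exact h3
  · filter_upwards [hy.1.1 1 one_pos] with k h2 ω hω
    exact cpd_pdM (h2.2.1 ω hω).1
  · exact opt_cmp Φ hG hx hy

/-- the score of the representatives -/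
theorem rG_sc {F : FSp} {W : Setoid F.Ω} {G : F.Ω → Matrix ι ι ℝ} (h : Kn1 W G) (hG : ∀ ω, F.μ ω ≠ 0 → PdM (G ω))
    (hG' : ∀ ω, F.μ ω ≠ 0 → PdM (rG W G ω)) :
    |(zFD (rX W G) (rG W G)).sc - (zFD W G).sc| ≤
      Fintype.card ι * (2 * rC ι * (1 + Real.sqrt F.n)) / Real.log 2 := by
  rw [zFD_sc (rG_kn W G), zFD_sc h, ← Finset.sum_sub_distrib]
  refine (Finset.abs_sum_le_sum_abs _ _).trans ?_
  have hl : 0 < Real.log 2 := Real.log_pos (by norm_num)
  have h0 : ∀ ω, |F.μ ω * Real.logb 2 (rG W G ω).det - F.μ ω * Real.logb 2 (G ω).det| ≤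
      F.μ ω * (Fintype.card ι * (2 * rC ι * (1 + Real.sqrt F.n)) / Real.log 2) := by
    intro ω
    rw [← mul_sub, abs_mul, abs_of_nonneg (F.nn ω)]
    by_cases hω : F.μ ω = 0
    · rw [hω, zero_mul, zero_mul]
    · apply mul_le_mul_of_nonneg_left _ (F.nn ω)
      have h1 := Pool.Agent.Helper95.LF.logdet_near (hG' ω hω) (hG ω hω) (near_symm (rG_near h hG hω))
      rw [Real.logb, Real.logb, ← sub_div, abs_div, abs_of_pos hl]
      exact div_le_div_of_nonneg_right h1 hl.le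
  refine (Finset.sum_le_sum fun ω _ => h0 ω).trans (le_of_eq ?_)
  rw [← Finset.sum_mul]
  have h2 : ∑ ω, F.μ ω = 1 := F.ms
  rw [h2, one_mul]

/-- THE ROUNDING OF A LITERAL ADMISSIBLE FORM IS ADMISSIBLE -/
theorem rX_adf {R W : ∀ k, Setoid (S.F k).Ω} {G : ∀ k, (S.F k).Ω → Matrix ι ι ℝ}
    (hG : ∀ᶠ k in UF, Kn1 (W k) (G k)) (hR : ∀ᶠ k in UF, R k ⊓ (S.F k).Z ≤ W k)
    (hx : Φ.AdfK (LC.kz fun k => fc (R k)) A (fun k => zFD (W k) (G k))) :
    Φ.AdfK (LC.kz fun k => fc (R k)) A (fun k => zFD (rX (W k) (G k)) (rG (W k) (G k))) := by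
  refine ⟨fun η hη => ?_, ?_⟩
  · have h4 : 0 < η / 4 := by linarith
    filter_upwards [hG, hx.1 _ h4, sqrt_pow S (2 * rC ι) h4,
      S.lim.eventually (eventually_ge_atTop (4 / η))] with k h1 h2 h3 h5
    have hn := (S.F k).pos
    obtain ⟨a1, a2, a3, -⟩ := h2
    have eg : (zFD (W k) (G k)).g = G k := zFD_g h1
    have c1 : ∀ ω, (S.F k).μ ω ≠ 0 → Cpd (Φ.cp k) (G k ω) := fun ω hω => by
      have h6 := (a2 ω hω).1
      rwa [eg] at h6
    have c2 : ∀ ω, (S.F k).μ ω ≠ 0 → Cpd (Φ.cp k) (rG (W k) (G k) ω) := fun ω hω => by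
      obtain ⟨ω', b1, b2, -⟩ := rG_supp h1 hω
      rw [b2]
      exact c1 ω' b1
    have c3 : (S.F k).pb (fun ω => ¬ Φ.φ k ω (rG (W k) (G k) ω) ≤ 2 ^ (η * (S.F k).n)) ≤ η := by
      have a4 : (S.F k).pb (fun ω => ¬ Φ.φ k ω (G k ω) ≤ 2 ^ (η / 4 * (S.F k).n)) ≤ η / 4 := by
        have h6 := a3
        rw [eg] at h6
        exact h6
      refine le_trans (FSp.pb_mono _ ?_) (a4.trans (by linarith))
      intro ω hω h6 h7
      apply h6
      have hL : 0 ≤ 2 * rC ι * (1 + Real.sqrt (S.F k).n) := by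
        have := one_le_rC ι
        have := Real.sqrt_nonneg (S.F k).n
        positivity
      have h8 := phi_le_near Φ (k := k) (ω := ω) (cpd_pdM (c1 ω hω)) (cpd_pdM (c2 ω hω)) hL
        (rG_near h1 (fun ω hω => cpd_pdM (c1 ω hω)) hω)
      have h9 : 0 ≤ Φ.φ k ω (G k ω) := Φ.nn k ω _ (c1 ω hω).psd
      have h10 : 2 * Real.exp (2 * rC ι * (1 + Real.sqrt (S.F k).n)) * Φ.φ k ω (G k ω) ≤
          2 * 2 ^ (η / 4 * (S.F k).n) * 2 ^ (η / 4 * (S.F k).n) :=
        mul_le_mul (mul_le_mul_of_nonneg_left h3 (by norm_num)) h7 h9 (by positivity)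
      refine h8.trans (h10.trans ?_)
      have e1 : (2 : ℝ) * 2 ^ (η / 4 * (S.F k).n) * 2 ^ (η / 4 * (S.F k).n) = 2 ^ (1 + η / 2 * (S.F k).n) := by
        rw [Real.rpow_add (by norm_num), Real.rpow_one, mul_assoc, ← Real.rpow_add (by norm_num)]
        congr 2
        ring
      rw [e1]
      apply Real.rpow_le_rpow_of_exponent_le (by norm_num)
      rw [div_le_iff₀ hη] at h5
      nlinarith
    have eg1 : (zFD (rX (W k) (G k)) (rG (W k) (G k))).g = rG (W k) (G k) := zFD_g (rG_kn _ _)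
    have eg2 : (zFD (rX (W k) (G k)) (rG (W k) (G k))).g' = rG (W k) (G k) := zFD_g' (rG_kn _ _)
    refine ⟨fun i => ?_, fun ω hω => ?_, ?_, ?_⟩
    · have h6 : (zFD (rX (W k) (G k)) (rG (W k) (G k))).l.leak (A i k) ≤ (zFD (W k) (G k)).l.leak (A i k) := by
        apply I_mono_left
        have h7 : (fc (rX (W k) (G k)) : FL (S.F k)) ≤ fc (W k) := fc_le fun ω ω' _ _ a b => rX_ge (W k) (G k) ⟨b, a⟩
        exact h7.trans le_sup_left
      refine h6.trans ((a1 i).trans ?_)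
      nlinarith
    · rw [eg1, eg2]
      exact ⟨c2 ω hω, c2 ω hω⟩
    · rw [eg1]
      exact c3
    · rw [eg2]
      exact c3
  · apply kz_ofZ (R := R) (Z := fun k => rX (W k) (G k))
    filter_upwards [hR] with k hk
    exact (le_inf hk inf_le_right).trans (rX_ge (W k) (G k))

/-- the score does not change -/
theorem rX_sc {R W : ∀ k, Setoid (S.F k).Ω} {G : ∀ k, (S.F k).Ω → Matrix ι ι ℝ}
    (hG : ∀ᶠ k in UF, Kn1 (W k) (G k)) (hR : ∀ᶠ k in UF, R k ⊓ (S.F k).Z ≤ W k)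
    (hx : Φ.AdfK (LC.kz fun k => fc (R k)) A (fun k => zFD (W k) (G k))) :
    ul (fun k => (zFD (rX (W k) (G k)) (rG (W k) (G k))).sc / (S.F k).n) =
      ul (fun k => (zFD (W k) (G k)).sc / (S.F k).n) := by
  have t1 := ul_tendsto (Φ.sc_UBf hx.1)
  have t2 : Tendsto (fun k => (zFD (rX (W k) (G k)) (rG (W k) (G k))).sc / (S.F k).n -
      (zFD (W k) (G k)).sc / (S.F k).n) UF (𝓝 0) := by
    have t3 := sqrt_tendsto S (Fintype.card ι * (2 * rC ι) / Real.log 2)
    apply squeeze_zero_norm' _ t3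
    filter_upwards [hG, hx.1 1 one_pos, (rX_adf Φ hG hR hx).1 1 one_pos] with k h1 h2 h3
    have hn := (S.F k).pos
    have eg : (zFD (W k) (G k)).g = G k := zFD_g h1
    have eg1 : (zFD (rX (W k) (G k)) (rG (W k) (G k))).g = rG (W k) (G k) := zFD_g (rG_kn _ _)
    have h4 := rG_sc h1 (fun ω hω => by
      have h6 := (h2.2.1 ω hω).1
      rw [eg] at h6
      exact cpd_pdM h6) (fun ω hω => by
      have h6 := (h3.2.1 ω hω).1
      rw [eg1] at h6
      exact cpd_pdM h6)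
    rw [Real.norm_eq_abs, ← sub_div, abs_div, abs_of_pos hn]
    refine (div_le_div_of_nonneg_right h4 hn.le).trans (le_of_eq ?_)
    ring
  have t4 := t2.add t1
  rw [zero_add] at t4
  apply ul_eq
  refine t4.congr fun k => ?_
  ring

/-- THE ROUNDING OF A LITERAL OPTIMAL FORM IS OPTIMAL -/
theorem rX_opt {R W : ∀ k, Setoid (S.F k).Ω} {G : ∀ k, (S.F k).Ω → Matrix ι ι ℝ}
    (hG : ∀ᶠ k in UF, Kn1 (W k) (G k)) (hR : ∀ᶠ k in UF, R k ⊓ (S.F k).Z ≤ W k)
    (hx : Φ.OptfK (LC.kz fun k => fc (R k)) A (fun k => zFD (W k) (G k))) :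
    Φ.OptfK (LC.kz fun k => fc (R k)) A (fun k => zFD (rX (W k) (G k)) (rG (W k) (G k))) :=
  ⟨rX_adf Φ hG hR hx.1, fun y hy => (hx.2 y hy).trans (rX_sc Φ hG hR hx.1).ge⟩

/-! ### minimal carriers -/

/-- MINIMAL CARRIERS: a literal partition `X`, a function of `R` and the base, which carries an optimal K-form `G` and
which is known to the rounding of `G` -/
structure MinC (R : ∀ k, Setoid (S.F k).Ω) (A : κ → Part S) (X : ∀ k, Setoid (S.F k).Ω) : Prop where
  lit : ∀ᶠ k in UF, R k ⊓ (S.F k).Z ≤ X k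
  car : ∃ G : ∀ k, (S.F k).Ω → Matrix ι ι ℝ, (∀ᶠ k in UF, Kn1 (X k) (G k)) ∧
    Φ.OptfK (LC.kz fun k => fc (R k)) A (fun k => zFD (X k) (G k)) ∧
    Nul S (fun k => h (fc (X k)) (fc (Setoid.ker fun ω => rdm (S.F k).n (G k ω))))

variable {R : ∀ k, Setoid (S.F k).Ω}

/-- MINIMALITY: every label which carries an optimal form knows the minimal carrier -/
theorem MinC.min {X : ∀ k, Setoid (S.F k).Ω} (hX : MinC Φ R A X) {y : ∀ k, FD (S.F k) ι}
    (hy : Φ.OptfK (LC.kz fun k => fc (R k)) A y) :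
    Nul S (fun k => h ((y k).l.p.map (fc (X k))) ((y k).l.v)) := by
  obtain ⟨G, h1, h2, h3⟩ := hX.car
  have h4 := opt_knows Φ h1 h2 hy
  refine (h3.add h4).of_le (Eventually.of_forall fun k => h_nonneg _ _) (Eventually.of_forall fun k => ?_)
  have h5 := h_triangle' ((y k).l.p.map (fc (X k))) ((y k).l.p.map (fc (Setoid.ker fun ω => rdm (S.F k).n (G k ω))))
    ((y k).l.v)
  rw [(y k).l.p.h_map] at h5
  exact h5

/-- the carrier is unique up to `o(n)` bits -/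
theorem MinC.uniq {X X' : ∀ k, Setoid (S.F k).Ω} (hX : MinC Φ R A X) (hX' : MinC Φ R A X') :
    Nul S (fun k => h (fc (X k)) (fc (X' k))) := by
  obtain ⟨G, -, h2, -⟩ := hX'.car
  have h3 := hX.min Φ h2
  refine h3.congr fun k => ?_
  rfl

/-- the rounding of a literal optimal form is a minimal carrier -/
theorem minC_of {W : ∀ k, Setoid (S.F k).Ω} {G : ∀ k, (S.F k).Ω → Matrix ι ι ℝ}
    (hG : ∀ᶠ k in UF, Kn1 (W k) (G k)) (hR : ∀ᶠ k in UF, R k ⊓ (S.F k).Z ≤ W k)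
    (hx : Φ.OptfK (LC.kz fun k => fc (R k)) A (fun k => zFD (W k) (G k))) :
    MinC Φ R A (fun k => rX (W k) (G k)) := by
  have h1 := rX_opt Φ hG hR hx
  refine ⟨?_, fun k => rG (W k) (G k), Eventually.of_forall fun k => rG_kn _ _, h1, ?_⟩
  · filter_upwards [hR] with k hk
    exact (le_inf hk inf_le_right).trans (rX_ge (W k) (G k))
  · set y : ∀ k, FD (S.F k) ι := fun k => zFD (Setoid.ker fun ω => rdm (S.F k).n (rG (W k) (G k) ω))
      (fun ω => rdm (S.F k).n (rG (W k) (G k) ω)) with hy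
    have hk : ∀ k, Kn1 (Setoid.ker fun ω => rdm (S.F k).n (rG (W k) (G k) ω))
        (fun ω => rdm (S.F k).n (rG (W k) (G k) ω)) := fun k ω ω' _ _ h _ => h
    have eg : ∀ k, (y k).g = fun ω => rdm (S.F k).n (rG (W k) (G k) ω) := fun k => zFD_g (hk k)
    have c1 : ∀ᶠ k in UF, ∀ ω, (S.F k).μ ω ≠ 0 → Cpd (Φ.cp k) (G k ω) := by
      filter_upwards [hG, (hx.1.1 1 one_pos)] with k h1 h2 ω hω
      have h3 := (h2.2.1 ω hω).1
      have e : (zFD (W k) (G k)).g = G k := zFD_g h1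
      rwa [e] at h3
    have c2 : ∀ᶠ k in UF, ∀ ω, (S.F k).μ ω ≠ 0 → Cpd (Φ.cp k) (rG (W k) (G k) ω) := by
      filter_upwards [hG, c1] with k h1 h2 ω hω
      obtain ⟨ω', b1, b2, -⟩ := rG_supp h1 hω
      rw [b2]
      exact h2 ω' b1
    have h2 := knows (y := y) (G := G) (c := Φ.C + 1) (by linarith [Φ.C0]) c1 (by
      filter_upwards [c2] with k a ω hω
      rw [eg]
      exact rdm_pd _ (cpd_pdM (a ω hω))) (by
      intro e he
      apply tendsto_const_nhds.congr'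
      filter_upwards [hG, c1, c2, sqrt_eventually S (e := e / (3 * rC ι)) (by
        have := one_le_rC ι
        positivity)] with k a b c d
      symm
      have hn := (S.F k).pos
      apply pb_zero
      intro ω hω hne
      apply hne
      rw [eg]
      have h3 := near_trans (rG_near a (fun ω hω => cpd_pdM (b ω hω)) hω) (rdm_near (S.F k).n (cpd_pdM (c ω hω)))
      have h4 : 2 * rC ι * (1 + Real.sqrt (S.F k).n) + rC ι * (1 + Real.sqrt (S.F k).n) ≤ e * (S.F k).n := by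
        have hC := one_le_rC ι
        have h5 := mul_le_mul_of_nonneg_left d (show (0 : ℝ) ≤ 3 * rC ι by positivity)
        have e1 : 3 * rC ι * (e / (3 * rC ι) * (S.F k).n) = e * (S.F k).n := by
          field_simp
        rw [e1] at h5
        linarith
      exact near_mono h3 h4 (cpd_pdM (b ω hω)) (rdm_pd _ (cpd_pdM (c ω hω))))
    refine h2.congr' ?_
    filter_upwards [hG] with k a
    have e1 : (fc (rX (W k) (G k)) : FL (S.F k)) = fc (Setoid.ker fun ω => rdm (S.F k).n (G k ω)) := by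
      apply le_antisymm
      · apply fc_le
        intro ω ω' m1 m2 _ e
        have e' : rdm (S.F k).n (G k ω) = rdm (S.F k).n (G k ω') := e
        show rv (W k) (G k) ω = rv (W k) (G k) ω'
        rw [rv_supp a m1, rv_supp a m2, e']
      · apply fc_le
        intro ω ω' m1 m2 _ e
        have e' : rv (W k) (G k) ω = rv (W k) (G k) ω' := e
        rw [rv_supp a m1, rv_supp a m2] at e'
        exact e'
    rw [e1]
    rfl

/-- MINIMAL CARRIERS EXIST -/
theorem exists_minC [Finite κ] (A : κ → Part S) (R : ∀ k, Setoid (S.F k).Ω) :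
    ∃ X : ∀ k, Setoid (S.F k).Ω, MinC Φ R A X := by
  obtain ⟨W, G, h1, h2, h3⟩ := exists_zFD Φ A R
  exact ⟨_, minC_of Φ (Eventually.of_forall h2) h1 h3⟩

end

end Pool.Agent.Helper95.VIS
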