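import Pool.Agent.Helper95.VIS.Row
import Pool.Agent.Helper71.VIS.V1m

/-! **ROW `VISO`** of Helper29/HX/St, from the rows TOPZ and LIMX of Helper94/SEL/St. -/

set_option autoImplicit false

namespace Pool.Agent.Helper95.VIS

open Pool.Agent.Helper69.RK Pool.Agent.Helper31.EC Pool.Agent.Helper31.EC.Sp
open Pool.Agent.Helper84.MT Pool.Agent.Helper36.AM
open Pool.Agent.Helper29.MX
open Pool.Agent.Helper94.SEL

variable {M : ℕ}

/-- V1 for the rounded point -/
theorem v1r (hT : TOPZ M) : V1R M := by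
  intro A C v hc m g r e0 P W a hW hS hMn S s R hLL e he h1 hel _ hrig
  have h2 := Pool.Agent.Helper71.VIS.v1_row hT hc hW hS hMn hLL he h1 hel hrig
  rw [vis_rd]
  intro T p B hB c h0 hwc j hj
  have h3 := h2 T p B hB c h0 hwc j hj
  rw [← Pool.Agent.Helper71.VIS.volP_rd] at h3
  exact h3

/-- **VISO** -/
theorem viso_row (hT : TOPZ M) (hL : LIMX M) : Pool.Agent.Helper29.HX.VISO M := viso_of hL (v1r hT)

end Pool.Agent.Helper95.VIS
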