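import Pool.Agent.Helper95.VIS.Rq
import Pool.Agent.Helper66.NJ.Cnt
import Pool.Agent.Helper89.LX.Njr

/-! MINIMAL CARRIERS. A literal optimal K-form is rounded at a subexponential scale; the partition into the roundings
carries an optimal form and is known (up to `o(n)` bits) to every label which carries an optimal form. -/

set_option autoImplicit false

namespace Pool.Agent.Helper95.VIS

open Finset Filter Topology Matrix Pool.Agent.Helper69.RK Pool.Agent.Helper31.EC Pool.Agent.Helper40.EL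
open Pool.Agent.Helper33.LIT Pool.Agent.Helper89.LX Pool.Agent.Helper66.NJ
open Pool.Agent.Helper95.LF (PdM NearM)

noncomputable section

/-! ### the rounding -/

theorem exists_rnd (ι : Type) [Fintype ι] : ∃ (C : ℝ) (Q : ℝ → Matrix ι ι ℝ → Matrix ι ι ℝ), 1 ≤ C ∧ ∀ n : ℝ,
    (∀ A, PdM A → PdM (Q n A) ∧ NearM (C * (1 + Real.sqrt n)) A (Q n A)) ∧
    ∀ A, PdM A → ∀ L : ℝ, 1 + Real.sqrt n ≤ L → ∃ S : Finset (Matrix ι ι ℝ), (S.card : ℝ) ≤ Real.exp (C * L) ∧
      ∀ A', PdM A' → NearM L A A' → Q n A' ∈ S := by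
  obtain ⟨C, hC, h⟩ := round_cover ι
  have h1 : ∀ n : ℝ, (1 : ℝ) ≤ 1 + Real.sqrt n := fun n => by
    have := Real.sqrt_nonneg n
    linarith
  choose Q hQ using fun n : ℝ => h (1 + Real.sqrt n) (h1 n)
  exact ⟨C, Q, hC, hQ⟩

/-- the constant of the rounding -/
def rC (ι : Type) [Fintype ι] : ℝ := (exists_rnd ι).choose

/-- THE ROUNDING of forms at the scale `exp (1 + √n)` -/
def rdm {ι : Type} [Fintype ι] (n : ℝ) : Matrix ι ι ℝ → Matrix ι ι ℝ := (exists_rnd ι).choose_spec.choose n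

theorem one_le_rC (ι : Type) [Fintype ι] : 1 ≤ rC ι := (exists_rnd ι).choose_spec.choose_spec.1

theorem rdm_near {ι : Type} [Fintype ι] (n : ℝ) {A : Matrix ι ι ℝ} (hA : PdM A) :
    NearM (rC ι * (1 + Real.sqrt n)) A (rdm n A) := (((exists_rnd ι).choose_spec.choose_spec.2 n).1 A hA).2

theorem rdm_pd {ι : Type} [Fintype ι] (n : ℝ) {A : Matrix ι ι ℝ} (hA : PdM A) : PdM (rdm n A) :=
  (((exists_rnd ι).choose_spec.choose_spec.2 n).1 A hA).1

theorem rdm_cover {ι : Type} [Fintype ι] (n : ℝ) {A : Matrix ι ι ℝ} (hA : PdM A) {L : ℝ}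
    (hL : 1 + Real.sqrt n ≤ L) : ∃ S : Finset (Matrix ι ι ℝ), (S.card : ℝ) ≤ Real.exp (rC ι * L) ∧
      ∀ A', PdM A' → NearM L A A' → rdm n A' ∈ S := ((exists_rnd ι).choose_spec.choose_spec.2 n).2 A hA L hL

theorem near_trans {ι : Type} [Fintype ι] {A B C : Matrix ι ι ℝ} {L L' : ℝ} (h : NearM L A B) (h' : NearM L' B C) :
    NearM (L + L') A C := by
  constructor
  · intro x
    have a := h.1 x
    have b := mul_le_mul_of_nonneg_left (h'.1 x) (Real.exp_pos L).le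
    rw [Real.exp_add]
    linarith
  · intro x
    have a := h'.2 x
    have b := mul_le_mul_of_nonneg_left (h.2 x) (Real.exp_pos L').le
    rw [Real.exp_add]
    linarith

theorem near_symm {ι : Type} [Fintype ι] {A B : Matrix ι ι ℝ} {L : ℝ} (h : NearM L A B) : NearM L B A := ⟨h.2, h.1⟩

/-- forms with the same rounding are comparable -/
theorem rdm_eq_near {ι : Type} [Fintype ι] {n : ℝ} {A B : Matrix ι ι ℝ} (hA : PdM A) (hB : PdM B)
    (h : rdm n A = rdm n B) : NearM (2 * rC ι * (1 + Real.sqrt n)) A B := by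
  have h1 := rdm_near n hA
  have h2 := rdm_near n hB
  rw [← h] at h2
  have h3 := near_trans h1 (near_symm h2)
  have e : rC ι * (1 + Real.sqrt n) + rC ι * (1 + Real.sqrt n) = 2 * rC ι * (1 + Real.sqrt n) := by ring
  rwa [e] at h3

/-! ### the partition into the roundings -/

section fin
variable {ι : Type} [Fintype ι] {F : FSp}

open Classical in
/-- the rounded value at an element with the property -/
def pick (p : F.Ω → Prop) (G : F.Ω → Matrix ι ι ℝ) : Matrix ι ι ℝ := if h : ∃ ω, p ω then rdm F.n (G h.choose) else 0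

open Classical in
/-- a value of `G` with the rounding `v` -/
def rep (G : F.Ω → Matrix ι ι ℝ) (v : Matrix ι ι ℝ) : Matrix ι ι ℝ :=
  if h : ∃ ω, F.μ ω ≠ 0 ∧ rdm F.n (G ω) = v then G h.choose else 0

/-- the rounding of a function which is known to `W`, extended to the null atoms -/
def rv (W : Setoid F.Ω) (G : F.Ω → Matrix ι ι ℝ) (ω : F.Ω) : Matrix ι ι ℝ :=
  pick (fun ω' => F.μ ω' ≠ 0 ∧ W ω ω' ∧ F.Z ω ω') G

/-- THE PARTITION INTO THE ROUNDINGS -/
def rX (W : Setoid F.Ω) (G : F.Ω → Matrix ι ι ℝ) : Setoid F.Ω := Setoid.ker (rv W G)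

/-- the representative of the rounding -/
def rG (W : Setoid F.Ω) (G : F.Ω → Matrix ι ι ℝ) (ω : F.Ω) : Matrix ι ι ℝ := rep G (rv W G ω)

theorem rX_ge (W : Setoid F.Ω) (G : F.Ω → Matrix ι ι ℝ) : W ⊓ F.Z ≤ rX W G := by
  intro ω ω' h
  show rv W G ω = rv W G ω'
  unfold rv
  congr 1
  funext ω''
  apply propext
  constructor
  · rintro ⟨a, b, c⟩
    exact ⟨a, W.trans (W.symm h.1) b, F.Z.trans (F.Z.symm h.2) c⟩
  · rintro ⟨a, b, c⟩
    exact ⟨a, W.trans h.1 b, F.Z.trans h.2 c⟩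

theorem rv_supp {W : Setoid F.Ω} {G : F.Ω → Matrix ι ι ℝ} (h : Kn1 W G) {ω : F.Ω} (hω : F.μ ω ≠ 0) :
    rv W G ω = rdm F.n (G ω) := by
  classical
  have hex : ∃ ω', F.μ ω' ≠ 0 ∧ W ω ω' ∧ F.Z ω ω' := ⟨ω, hω, W.refl ω, F.Z.refl ω⟩
  have h1 : rv W G ω = rdm F.n (G hex.choose) := dif_pos hex
  obtain ⟨a, b, c⟩ := hex.choose_spec
  rw [h1, h ω hex.choose hω a b c]

theorem rG_kn (W : Setoid F.Ω) (G : F.Ω → Matrix ι ι ℝ) : Kn1 (rX W G) (rG W G) := fun ω ω' _ _ h _ => by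
  have h1 : rv W G ω = rv W G ω' := h
  show rep G (rv W G ω) = rep G (rv W G ω')
  rw [h1]

theorem rG_supp {W : Setoid F.Ω} {G : F.Ω → Matrix ι ι ℝ} (h : Kn1 W G) {ω : F.Ω} (hω : F.μ ω ≠ 0) :
    ∃ ω', F.μ ω' ≠ 0 ∧ rG W G ω = G ω' ∧ rdm F.n (G ω') = rdm F.n (G ω) := by
  classical
  have hex : ∃ ω', F.μ ω' ≠ 0 ∧ rdm F.n (G ω') = rv W G ω := ⟨ω, hω, (rv_supp h hω).symm⟩
  have h1 : rG W G ω = G hex.choose := dif_pos hex
  exact ⟨hex.choose, hex.choose_spec.1, h1, hex.choose_spec.2.trans (rv_supp h hω)⟩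

theorem rG_near {W : Setoid F.Ω} {G : F.Ω → Matrix ι ι ℝ} (h : Kn1 W G) (hG : ∀ ω, F.μ ω ≠ 0 → PdM (G ω)) {ω : F.Ω}
    (hω : F.μ ω ≠ 0) : NearM (2 * rC ι * (1 + Real.sqrt F.n)) (G ω) (rG W G ω) := by
  obtain ⟨ω', h1, h2, h3⟩ := rG_supp h hω
  rw [h2]
  exact rdm_eq_near (hG ω hω) (hG ω' h1) h3.symm

end fin

/-! ### asymptotics -/

theorem sqrt_tendsto (S : Sp) (c : ℝ) : Tendsto (fun k => c * (1 + Real.sqrt (S.F k).n) / (S.F k).n) UF (𝓝 0) := by
  have h1 : Tendsto (fun x : ℝ => c * (1 + Real.sqrt x) / x) atTop (𝓝 0) := by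
    have a : Tendsto (fun x : ℝ => c / x + c / Real.sqrt x) atTop (𝓝 (0 + 0)) := by
      apply Tendsto.add
      · exact tendsto_const_nhds.div_atTop tendsto_id
      · exact tendsto_const_nhds.div_atTop Real.tendsto_sqrt_atTop
    rw [add_zero] at a
    refine a.congr' ?_
    filter_upwards [eventually_gt_atTop 0] with x hx
    have hs : 0 < Real.sqrt x := Real.sqrt_pos.mpr hx
    have e : x = Real.sqrt x * Real.sqrt x := (Real.mul_self_sqrt hx.le).symm
    have e1 : c / Real.sqrt x = c * Real.sqrt x / x := by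
      rw [div_eq_div_iff hs.ne' hx.ne', mul_assoc, ← e]
    rw [e1, ← add_div]
    congr 1
    ring
  exact h1.comp S.lim

theorem sqrt_eventually (S : Sp) {e : ℝ} (he : 0 < e) : ∀ᶠ k in UF, 1 + Real.sqrt (S.F k).n ≤ e * (S.F k).n := by
  filter_upwards [(sqrt_tendsto S 1).eventually (gt_mem_nhds he)] with k hk
  rw [div_lt_iff₀ (S.F k).pos, one_mul] at hk
  exact hk.le

/-- subexponential comparability -/
theorem sqrt_pow (S : Sp) (c : ℝ) {e : ℝ} (he : 0 < e) :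
    ∀ᶠ k in UF, Real.exp (c * (1 + Real.sqrt (S.F k).n)) ≤ 2 ^ (e * (S.F k).n) := by
  have hl : 0 < Real.log 2 := Real.log_pos (by norm_num)
  filter_upwards [(sqrt_tendsto S c).eventually (gt_mem_nhds (mul_pos he hl))] with k hk
  rw [div_lt_iff₀ (S.F k).pos] at hk
  rw [Real.rpow_def_of_pos (by norm_num)]
  apply Real.exp_le_exp.mpr
  linarith

/-! ### gauges and comparable forms -/

section gau
variable {ι : Type} [Fintype ι] [DecidableEq ι] {S : Sp} (Φ : Gau S ι)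

theorem phi_nsmul (k : ℕ) (ω : (S.F k).Ω) (A : Matrix ι ι ℝ) (m : ℕ) :
    Φ.φ k ω ((m : ℝ) • A) = m * Φ.φ k ω A := by
  induction m with
  | zero =>
    have h1 := Φ.add k ω 0 0
    rw [add_zero] at h1
    rw [Nat.cast_zero, zero_smul, zero_mul]
    linarith
  | succ m ih =>
    rw [Nat.cast_succ, add_smul, one_smul, Φ.add, ih]
    ring

/-- a gauge of comparable forms -/
theorem phi_le_near {k : ℕ} {ω : (S.F k).Ω} {A B : Matrix ι ι ℝ} (hA : PdM A) (hB : PdM B) {L : ℝ} (hL : 0 ≤ L)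
    (h : NearM L A B) : Φ.φ k ω B ≤ 2 * Real.exp L * Φ.φ k ω A := by
  set m : ℕ := ⌈Real.exp L⌉₊ with hm
  have h1 : Real.exp L ≤ m := Nat.le_ceil _
  have h2 : (m : ℝ) ≤ 2 * Real.exp L := by
    have := (Nat.ceil_lt_add_one (Real.exp_pos L).le).le
    have := Real.one_le_exp hL
    linarith
  have hA0 : Psd A := ⟨hA.1, hA.nonneg⟩
  have hP : Psd ((m : ℝ) • A - B) := by
    refine ⟨(hA.1.smul _).sub hB.1, fun x => ?_⟩
    show 0 ≤ x ⬝ᵥ (((m : ℝ) • A - B) *ᵥ x)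
    rw [Matrix.sub_mulVec, dotProduct_sub, Pool.Agent.Helper95.LF.dv_smul]
    have h3 := h.2 x
    have h4 := mul_le_mul_of_nonneg_right h1 (hA.nonneg x)
    linarith
  have h3 := Φ.add k ω ((m : ℝ) • A - B) B
  rw [sub_add_cancel, phi_nsmul] at h3
  have h4 := Φ.nn k ω _ hP
  have h5 := mul_le_mul_of_nonneg_right h2 (Φ.nn k ω A hA0)
  linarith

omit [DecidableEq ι] in
theorem cpd_pdM {c : ℝ} {A : Matrix ι ι ℝ} (h : Cpd c A) : PdM A := ⟨h.1, fun _ hx => h.pd hx⟩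

end gau


/-! ### comparable labels know the rounding -/

section cmp
variable {ι : Type} [Fintype ι] [DecidableEq ι] {S : Sp}

/-- the form of a label is typically comparable to a function of the space, up to every exponent `e > 0` -/
def Cmp (G : ∀ k, (S.F k).Ω → Matrix ι ι ℝ) (y : ∀ k, FD (S.F k) ι) : Prop := ∀ e : ℝ, 0 < e →
  Tendsto (fun k => (y k).l.T.pb (fun ω => ¬ NearM (e * (S.F k).n) (G k ((y k).l.p.π ω)) ((y k).g ω))) UF (𝓝 0)

theorem knows_fin {F : FSp} (y : FD F ι) (G : F.Ω → Matrix ι ι ℝ) {c e : ℝ} (he : 0 < e) (hc : 0 ≤ c)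
    (hG : ∀ ω, F.μ ω ≠ 0 → Cpd (2 ^ (c * F.n)) (G ω)) (hy : ∀ ω, y.l.T.μ ω ≠ 0 → PdM (y.g ω))
    (hn : 1 + Real.sqrt F.n ≤ e * F.n) :
    h (fc (Setoid.ker fun ω => rdm F.n (G (y.l.p.π ω)))) y.l.v ≤ rC ι / Real.log 2 * e * F.n +
      y.l.T.pb (fun ω => ¬ NearM (e * F.n) (G (y.l.p.π ω)) (y.g ω)) * (rC ι / Real.log 2 * (c + e) * F.n) + 1 := by
  classical
  have hl : 0 < Real.log 2 := Real.log_pos (by norm_num)
  have hl1 : Real.log 2 ≤ 1 := by
    have := Real.log_two_lt_d9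
    linarith
  have hC := one_le_rC ι
  have hC0 : 0 < rC ι := by linarith
  have hn0 := F.pos
  set L : ℝ := e * F.n with hL
  have hL0 : 0 < L := mul_pos he hn0
  set N : ℕ := ⌊Real.exp (rC ι * L)⌋₊ with hN
  have hN1 : 1 ≤ N := Nat.le_floor (by
    rw [Nat.cast_one]
    exact Real.one_le_exp (mul_pos hC0 hL0).le)
  have hNl : Real.logb 2 N ≤ rC ι / Real.log 2 * e * F.n := by
    have h1 : (N : ℝ) ≤ Real.exp (rC ι * L) := Nat.floor_le (Real.exp_pos _).le
    have h2 : Real.logb 2 N ≤ Real.logb 2 (Real.exp (rC ι * L)) :=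
      Real.logb_le_logb_of_le (by norm_num) (by exact_mod_cast hN1) h1
    refine h2.trans (le_of_eq ?_)
    rw [Real.logb, Real.log_exp, hL]
    ring
  -- the values which are comparable to `v`
  have hS : ∀ v : Matrix ι ι ℝ, ∃ T : Finset (Matrix ι ι ℝ), T.card ≤ N ∧
      (PdM v → ∀ A', PdM A' → NearM L v A' → rdm F.n A' ∈ T) := by
    intro v
    by_cases hv : PdM v
    · obtain ⟨T, h1, h2⟩ := rdm_cover F.n hv hn
      exact ⟨T, Nat.le_floor h1, fun _ => h2⟩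
    · exact ⟨∅, by simp, fun h => absurd h hv⟩
  choose T hT1 hT2 using hS
  obtain ⟨X, hX1, hX2⟩ := rdm_cover F.n (Pool.Agent.Helper95.LF.PdM.one (κ := ι)) (L := (c + e) * F.n) (by
    have : 0 ≤ c * F.n := mul_nonneg hc hn0.le
    rw [add_mul]
    linarith)
  have hM : (1 : ℝ) ≤ Real.exp (rC ι * ((c + e) * F.n)) := Real.one_le_exp (by positivity)
  have hMl : Real.logb 2 (Real.exp (rC ι * ((c + e) * F.n))) = rC ι / Real.log 2 * (c + e) * F.n := by
    rw [Real.logb, Real.log_exp]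
    ring
  have key := h_few_typ (F := y.l.T) (fun ω => NearM L (G (y.l.p.π ω)) (y.g ω))
    (fun ω => rdm F.n (G (y.l.p.π ω))) (fun ω => y.g ω) N hN1
    (fun v i => if hi : (i : ℕ) < (T v).card then ((T v).equivFin.symm ⟨i, hi⟩ : Matrix ι ι ℝ) else 0) (by
      intro ω hω hE
      have hm : rdm F.n (G (y.l.p.π ω)) ∈ T (y.g ω) :=
        hT2 _ (hy ω hω) _ (cpd_pdM (hG _ (y.l.p.supp ω hω))) (near_symm hE)
      set j := (T (y.g ω)).equivFin ⟨_, hm⟩ with hj
      refine ⟨⟨j, j.2.trans_le (hT1 _)⟩, ?_⟩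
      rw [dif_pos j.2]
      have e1 : (⟨(j : ℕ), j.2⟩ : Fin (T (y.g ω)).card) = j := rfl
      rw [e1, hj, Equiv.symm_apply_apply])
    (Real.exp (rC ι * ((c + e) * F.n))) hM X hX1 (by
      intro ω hω
      have h1 := hG _ (y.l.p.supp ω hω)
      apply hX2 _ (cpd_pdM h1)
      have h2 : ∀ x : ι → ℝ, x ⬝ᵥ ((1 : Matrix ι ι ℝ) *ᵥ x) = x ⬝ᵥ x := fun x => by rw [Matrix.one_mulVec]
      have h3 : (2 : ℝ) ^ (c * F.n) ≤ Real.exp ((c + e) * F.n) := by
        rw [Real.rpow_def_of_pos (by norm_num)]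
        apply Real.exp_le_exp.mpr
        have h4 : Real.log 2 * (c * F.n) ≤ 1 * (c * F.n) := mul_le_mul_of_nonneg_right hl1 (mul_nonneg hc hn0.le)
        rw [add_mul]
        linarith
      constructor
      · intro x
        rw [h2]
        have h5 := h1.2.1 x
        have h6 : (1 : ℝ) ≤ Real.exp ((c + e) * F.n) := Real.one_le_exp (by positivity)
        have h7 := dot_self_nonneg x
        have h8 : qf (G (y.l.p.π ω)) x = x ⬝ᵥ (G (y.l.p.π ω) *ᵥ x) := rfl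
        rw [h8] at h5
        nlinarith
      · intro x
        rw [h2]
        exact (h1.2.2 x).trans (mul_le_mul_of_nonneg_right h3 (dot_self_nonneg x)))
  have hle : (fc (Setoid.ker fun ω => y.g ω) : FL y.l.T) ≤ y.l.v := by
    apply fc_le
    intro ω ω' h1 h2 h3 h4
    exact (y.meas ω ω' h1 h2 h4 h3).1
  refine (h_anti hle).trans (key.trans ?_)
  rw [hMl]
  linarith

/-- A LABEL WITH A COMPARABLE FORM KNOWS THE ROUNDING -/
theorem knows {y : ∀ k, FD (S.F k) ι} {G : ∀ k, (S.F k).Ω → Matrix ι ι ℝ} {c : ℝ} (hc : 0 ≤ c)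
    (hG : ∀ᶠ k in UF, ∀ ω, (S.F k).μ ω ≠ 0 → Cpd (2 ^ (c * (S.F k).n)) (G k ω))
    (hy : ∀ᶠ k in UF, ∀ ω, (y k).l.T.μ ω ≠ 0 → PdM ((y k).g ω)) (hC : Cmp G y) :
    Nul S (fun k => h (fc (Setoid.ker fun ω => rdm (S.F k).n (G k ((y k).l.p.π ω)))) ((y k).l.v)) := by
  have hl : 0 < Real.log 2 := Real.log_pos (by norm_num)
  set K : ℝ := rC ι / Real.log 2 with hK
  have hK0 : 0 < K := div_pos (by linarith [one_le_rC ι]) hl
  show Tendsto _ _ _
  rw [Metric.tendsto_nhds]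
  intro ε hε
  set e : ℝ := ε / (4 * K) with he
  have he0 : 0 < e := by positivity
  have h4 : 0 < ε / (4 * (K * (c + e))) := by positivity
  have hinv := S.div_n_tendsto 1
  filter_upwards [hG, hy, sqrt_eventually S he0, (hC e he0).eventually (gt_mem_nhds h4),
    hinv.eventually (gt_mem_nhds (by linarith : 0 < ε / 4))] with k a b d f g
  have hn := (S.F k).pos
  rw [Real.dist_eq, sub_zero, abs_of_nonneg (div_nonneg (h_nonneg _ _) hn.le), div_lt_iff₀ hn]
  have h5 := knows_fin (y k) (G k) he0 hc a b d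
  refine lt_of_le_of_lt h5 ?_
  rw [lt_div_iff₀ (by positivity)] at f
  rw [div_lt_iff₀ hn] at g
  have e1 : K * e * (S.F k).n = ε / 4 * (S.F k).n := by
    rw [he]
    field_simp
  have e2 : (y k).l.T.pb (fun ω => ¬ NearM (e * (S.F k).n) (G k ((y k).l.p.π ω)) ((y k).g ω)) *
      (K * (c + e) * (S.F k).n) ≤ ε / 4 * (S.F k).n := by
    have h6 := mul_le_mul_of_nonneg_right (le_of_lt f) hn.le
    nlinarith
  have h7 : 0 < ε * (S.F k).n := mul_pos hε hn
  rw [e1]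
  nlinarith

variable (Φ : Gau S ι) {κ : Type} {C : LC S} {A : κ → Part S}

theorem adf_swap {x : ∀ k, FD (S.F k) ι} (hx : Φ.AdfK C A x) : Φ.AdfK C A (fun k => (x k).swap) := by
  refine ⟨fun η hη => ?_, hx.2⟩
  filter_upwards [hx.1 η hη] with k hk
  exact ⟨hk.1, fun ω hω => ⟨(hk.2.1 ω hω).2, (hk.2.1 ω hω).1⟩, hk.2.2.2, hk.2.2.1⟩

/-- the second of two optimal forms dominates the first one, in the join -/
theorem dom_swap {x y : ∀ k, FD (S.F k) ι} (hx : Φ.AdfK C A x) (hy : Φ.OptfK C A y) (e : ℝ) (he : 0 < e) :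
    Tendsto (fun k => ((x k).jj (y k)).l.T.pb (fun w =>
      ¬ ∀ v, qf (((x k).jj (y k)).g w) v ≤ 2 ^ (e * (S.F k).n) * qf (((x k).jj (y k)).g' w) v)) UF (𝓝 0) := by
  have h1 := adf_swap Φ (Gau.AdfK.jj Φ hx hy.1)
  refine Φ.opt_nearfK C (x := fun k => ((x k).jj (y k)).swap) h1 (fun z hz => ?_) e he
  have h2 : (fun k => (((x k).jj (y k)).swap).sc / (S.F k).n) = fun k => (y k).sc / (S.F k).n := by
    funext k
    have h3 : (((x k).jj (y k)).swap).sc = (y k).sc :=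
      sum_push ((x k).l.am (y k).l).p2 (fun ω => Real.logb 2 ((y k).g ω).det)
    rw [h3]
  rw [h2]
  exact hy.2 z hz

end cmp

end

end Pool.Agent.Helper95.VIS
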