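import Pool.Agent.Helper71.VIS.Trx
import Pool.Agent.Helper52.MW.Rigx

/-! THE CLASS `LL` (Helper94/SEL/St) is closed under events of extensions and slow diagonals. -/

set_option autoImplicit false

namespace Pool.Agent.Helper95.VIS

open Finset Filter Topology Matrix Pool.Agent.Helper69.RK Pool.Agent.Helper31.EC Pool.Agent.Helper31.EC.Sp
open Pool.Agent.Helper40.EL Pool.Agent.Helper89.LX Pool.Agent.Helper84.MT
open Pool.Agent.Helper49.MD Pool.Agent.Helper36.AM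
open Pool.Agent.Helper47.FN (KR lftR obR)
open Pool.Agent.Helper29.MX
open Pool.Agent.Helper94.SEL
open Pool.Agent.Helper52.MW (AllE_im)
open Pool.Agent.Helper71.VIS (bk_im)
open Pool.Agent.Helper77.TPX (oth)

noncomputable section

variable {M : ℕ} {A : MCl (M + 1)} {C : ℕ → MCl (M + 1)} {m v g r e0 : ℕ} {P : Par} {a : ℕ → ℝ}

/-- TOP on events of extensions -/
theorem top_im {S : Sp} {s : MSys S (M + 1) (lin g) (Fin r)} {R : Rsl S} {ρ l ε : ℝ} (h : Top ρ l ε s.Q) {T : Sp}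
    (p : Pj T S) (B : ∀ k, (T.F k).Ω → Prop) (hB : 0 < ul (T.pr B)) : Top ρ l ε (s.im p B hB).Q := by
  have h1 : AllE (fun (S : Sp) (t : MSys S (M + 1) (lin g) (Fin r)) _ => ∀ a b : ℝ, 0 ≤ a → a ≤ b → b ≤ l →
      Pool.Agent.Helper31.EC.h ((t.Q.co (Fin.last M)).dg b) ((t.Q.co (Fin.last M)).dg a ⊔
        (oth t.Q (Fin.last M)).dg 1) ≤ (1 - ρ) * (b - a) + ε) S s R := fun T q A hA => h T q A hA
  have h2 := AllE_im h1 p B hB
  exact fun T' q' A' hA' => h2 T' q' A' hA'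

/-- the exponents on events of extensions -/
theorem num_im {b0 : ℝ} {S : Sp} {s : MSys S (M + 1) (lin g) (Fin r)} {R : Rsl S} (h : BK (C m) v g r e0 b0 S s R)
    {T : Sp} (p : Pj T S) (B : ∀ k, (T.F k).Ω → Prop) (hB : 0 < ul (T.pr B)) {c : ℝ} (h0 : 0 ≤ c) (h1 : c < b0) {j : ℕ}
    (hj : j ≤ M + 1) : num (s.im p B hB) R hj c = num s R hj c := h.rig T p B hB c h0 h1 j hj

theorem tot_num {S : Sp} {E : ℕ → ℕ} {ι : Type} (s : MSys S (M + 1) E ι) (R : Rsl S) (c : ℝ) :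
    tot s R c = num s R le_rfl c := by
  unfold tot num
  rw [volKO_eq]
  rfl

/-- LL on events of extensions -/
theorem ll_im (hok : Okc (M + 1) A C) {S : Sp} {s : MSys S (M + 1) (lin g) (Fin r)} {R : Rsl S}
    (h : LL (C m) v g r e0 P a S s R) {T : Sp} (p : Pj T S) (B : ∀ k, (T.F k).Ω → Prop) (hB : 0 < ul (T.pr B)) :
    LL (C m) v g r e0 P a (Sp.im p B) (s.im p B hB) R := by
  have hn : ∀ c : ℝ, 0 ≤ c → c < P.l → ∀ (j : ℕ) (hj : j ≤ M + 1), num (s.im p B hB) R hj c = num s R hj c :=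
    fun c h0 h1 j hj => num_im h.ke.bk p B hB h0 h1 hj
  refine ⟨⟨bk_im hok h.ke.bk p B hB, fun c c' h0 h1 h2 => ?_, top_im (R := R) h.ke.top p B hB⟩, fun c h0 h1 j hj => ?_⟩
  · have h3 := h.ke.lip c c' h0 h1 h2
    rw [tot_num, tot_num] at h3 ⊢
    rw [hn c h0 (h1.trans_lt h2), hn c' (h0.trans h1) h2]
    exact h3
  · rw [hn c h0 h1]
    exact h.num c h0 h1 j hj

/-- **LL IS A CLOSED CLASS OF PAIRS** -/
theorem ll_cl2 (hL : LIMX M) (hc : Ctx M A C v) :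
    Cl2 (fun S (s : MSys S (M + 1) (lin g) (Fin r)) R => LL (C m) v g r e0 P a S s R) := by
  refine ⟨fun S s R h T q B hB => ll_im hc.ok h q B hB, ?_⟩
  have h1 := hL A C v hc m g r e0 P (fun _ => 0) (fun _ => le_rfl) tendsto_const_nhds (fun c => a (M + 1) * c)
    (fun j c => a j * c) Set.univ
  refine DiagTo.mono h1 ?_ ?_
  · rintro j S x ⟨s, R, h2, h3, h4⟩
    refine ⟨s, R, h2, h3, h4.ke, fun c h0 hl => ⟨?_, fun j _ hj => ?_⟩⟩
    · rw [tot_num, h4.num c h0 hl, sub_self, abs_zero]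
    · rw [h4.num c h0 hl, sub_self, abs_zero]
  · rintro S x ⟨s, R, h2, h3, h4, h5⟩
    exact ⟨s, R, h2, h3, h4, fun c h0 hl j hj => (h5 c h0 hl).2 j (Set.mem_univ j) hj⟩

end

end Pool.Agent.Helper95.VIS
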