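import Pool.Agent.Helper52.GF.Att

/-! VISO, the abstract part. In a class closed under diagonals and restrictions a functional attains its supremum on a
subclass; if every subclass has a member on which the attached partition is known to `W`, it is known to `W` for every
member of the class. -/

set_option autoImplicit false

namespace Pool.Agent.Helper95.VIS

open Finset Filter Topology Matrix Pool.Agent.Helper69.RK Pool.Agent.Helper31.EC Pool.Agent.Helper31.EC.Sp
open Pool.Agent.Helper40.EL Pool.Agent.Helper49.MD Pool.Agent.Helper52.GF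

noncomputable section

variable {K : FK}

/-- THE SUPREMUM OF A FUNCTIONAL IS ATTAINED, on a subclass -/
theorem exists_sup_cls {C : K.Pd} (hC : Cls C) (Φ : Fnl C) :
    ∃ v : ℝ, (∀ S x, C S x → Φ.f S x ≤ v) ∧ Cls (fun S x => C S x ∧ Φ.f S x = v) := by
  set V : Set ℝ := {r | ∃ (S : Sp) (x : K.Ob S), C S x ∧ r = Φ.f S x} with hV
  have hVb : BddAbove V := by
    refine ⟨Φ.M, ?_⟩
    rintro r ⟨S, s, hs, rfl⟩
    exact Φ.le S s hs
  have hVn : V.Nonempty := by
    obtain ⟨S, s, hs⟩ := hC.ne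
    exact ⟨_, S, s, hs, rfl⟩
  have hle : ∀ S x, C S x → Φ.f S x ≤ sSup V := fun S x hx => le_csSup hVb ⟨S, x, hx, rfl⟩
  have heq : (fun (S : Sp) (x : K.Ob S) => C S x ∧ Φ.f S x = sSup V) =
      fun (S : Sp) (x : K.Ob S) => C S x ∧ sSup V ≤ Φ.f S x := by
    funext S s
    apply propext
    exact ⟨fun h => ⟨h.1, h.2.ge⟩, fun h => ⟨h.1, le_antisymm (hle S s h.1) h.2⟩⟩
  -- attained
  have h2 : ∀ j : ℕ, ∃ r ∈ V, sSup V - 1 / ((j : ℝ) + 1) < r := by
    intro j
    apply exists_lt_of_lt_csSup hVn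
    have : (0 : ℝ) < 1 / ((j : ℝ) + 1) := by positivity
    linarith
  choose r hr hr' using h2
  choose S s hs hrs using hr
  obtain ⟨E₁, hE₁, c1⟩ := hC.dg S s hs
  obtain ⟨E₂, hE₂, c2⟩ := Φ.usc S s hs
  obtain ⟨J, hd⟩ := exists_slo S (fun i j k => E₁ i j k ∧ E₂ i j k) (fun i j => (hE₁ i j).and (hE₂ i j))
  have hu := c1 J hd.left
  have hfu := c2 J hd.right
  have ht : Tendsto (fun k => sSup V - 1 / ((J k : ℝ) + 1)) UF (𝓝 (sSup V)) := by
    have := (inv_tendsto hd.tend).const_sub (sSup V)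
    rwa [sub_zero] at this
  have hU : UB (fun k => Φ.f (S (J k)) (s (J k))) :=
    UB_of_nonneg_le (Eventually.of_forall fun k => Φ.nn _ _ (hs _)) (Eventually.of_forall fun k => Φ.le _ _ (hs _))
  have hge : sSup V ≤ ul (fun k => Φ.f (S (J k)) (s (J k))) := by
    refine le_of_tendsto_of_tendsto ht (ul_tendsto hU) (Eventually.of_forall fun k => ?_)
    have h3 := (hr' (J k)).le
    rwa [hrs (J k)] at h3
  refine ⟨sSup V, hle, ?_⟩
  rw [heq]
  refine ⟨DiagUsc.cl hC.dg Φ.usc (sSup V) Φ.M Φ.le, ?_, ?_, ⟨_, _, hu, hge.trans hfu⟩⟩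
  · intro S s hs T p E hE
    have hs1 := hC.im S s hs.1 T p E hE
    refine ⟨hs1, ?_⟩
    rcases typ_or E with ht | hE'
    · exact hs.2.trans (Φ.typ S s hs.1 T p E ht)
    · have h1 := Φ.spl S s hs.1 T p E hE hE'
      have h2 := hle _ _ (hC.im S s hs.1 T p _ hE')
      have h3 : ul (T.pr E) ≤ 1 := ul_pr_le_one E
      have h4 : (1 - ul (T.pr E)) * Φ.f _ (K.imo s p fun k ω => ¬ E k ω) ≤ (1 - ul (T.pr E)) * sSup V :=
        mul_le_mul_of_nonneg_left h2 (by linarith)
      have h5 : ul (T.pr E) * sSup V ≤ ul (T.pr E) * Φ.f _ (K.imo s p E) := by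
        have := hs.2
        linarith
      exact le_of_mul_le_mul_left h5 hE
  · intro S x y e hx
    exact ⟨hC.ev S x y e hx.1, hx.2.trans (Φ.ev S x y hx.1 e).ge⟩

/-- VISO, ABSTRACT FORM. `C`: objects with an attached partition of bounded rate, unique up to `o(n)` bits. If every
subclass (of objects without data) has a member the attached partition of which is known to `W`, then it is known to `W`
for EVERY member of `C`. -/
theorem viso_abs {C : (KX K Unit).Pd} (hC : Cls C) {c0 : ℝ} (h0 : 0 ≤ c0) (hb : ∀ S x, C S x → bdX K Unit c0 S x)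
    (hu : ∀ (S : Sp) (x y : (KX K Unit).Ob S), C S x → C S y →
      (∀ᶠ k in UF, (kxo K Unit).o x k = (kxo K Unit).o y k) → Eqn ((kxp K ()).pt x) ((kxp K ()).pt y))
    (W : Pu K)
    (hin : ∀ C' : K.Pd, Cls C' → (∀ S x, C' S x → (kxo K Unit).img C S x) → ∃ (S : Sp) (x : (KX K Unit).Ob S),
      C S x ∧ C' S ((kxo K Unit).o x) ∧
        Nul S (fun k => h ((kxp K ()).pt x k) (W.pt ((kxo K Unit).o x) k))) :
    ∀ (S : Sp) (x : (KX K Unit).Ob S), C S x →
      Nul S (fun k => h ((kxp K ()).pt x k) (W.pt ((kxo K Unit).o x) k)) := by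
  set X : Pt (KX K Unit) C := (kxt (K := K) c0 h0 ()).mono hb with hX
  set V : Dv (KX K Unit) C := hwv X (W.cm (kxo K Unit)) with hV
  set Φ : Fnl C := dvF hC.im V with hΦ
  have hf : ∀ (S : Sp) (x : (KX K Unit).Ob S), Φ.f S x =
      ul (fun k => h ((kxp K ()).pt x k) (W.pt ((kxo K Unit).o x) k) / (S.F k).n) := fun S x => rfl
  have hUB : ∀ (S : Sp) (x : (KX K Unit).Ob S), C S x →
      UB (fun k => h ((kxp K ()).pt x k) (W.pt ((kxo K Unit).o x) k) / (S.F k).n) := fun S x hx => V.UB hx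
  have hI : Idp (kxo K Unit) Φ := by
    intro S x y hx hy e
    rw [hf, hf]
    refine Eqn.ul_h (hu S x y hx hy e) (Eqn.of_ev ?_) (hUB S y hy)
    filter_upwards [e] with k hk
    show fc (W.X _ ((kxo K Unit).o x k)) = fc (W.X _ ((kxo K Unit).o y k))
    rw [hk]
  obtain ⟨v, hv, hcl⟩ := exists_sup_cls ((kxo K Unit).img_cls hC) (dfF hI hC.dg hC.im)
  have hval : ∀ (S : Sp) (x : (KX K Unit).Ob S), C S x →
      (dfF hI hC.dg hC.im).f S ((kxo K Unit).o x) = Φ.f S x := fun S x hx =>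
    dfv_eq hI hx (Eventually.of_forall fun _ => rfl)
  obtain ⟨S0, x0, hx0, hx1, hx2⟩ := hin _ hcl fun S x hx => hx.1
  have hv0 : v = 0 := by
    rw [← hx1.2, hval S0 x0 hx0, hf]
    exact ul_eq hx2
  intro S x hx
  have h1 : Φ.f S x ≤ 0 := by
    rw [← hval S x hx, ← hv0]
    exact hv _ _ ((kxo K Unit).img_mk hx)
  have h2 : 0 ≤ Φ.f S x := Φ.nn S x hx
  have h3 : Φ.f S x = 0 := le_antisymm h1 h2
  have h4 := ul_tendsto (hUB S x hx)
  rw [← hf, h3] at h4
  exact h4

end

end Pool.Agent.Helper95.VIS
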