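import Pool.Agent.Helper95.VIS.Viso
import Pool.Agent.Helper95.VIS.Vab
import Pool.Agent.Helper52.GF.Prk
import Pool.Agent.Helper29.MX.Bas

/-! CLASSES OF PAIRS WITH MINIMAL CARRIERS: if literal optimal K-forms of the members stay optimal on events of extensions
and along slow diagonals, the pairs with attached minimal carriers are a class. VISO for every member of the class. -/

set_option autoImplicit false

namespace Pool.Agent.Helper95.VIS

open Finset Filter Topology Matrix Pool.Agent.Helper69.RK Pool.Agent.Helper31.EC Pool.Agent.Helper31.EC.Sp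
open Pool.Agent.Helper40.EL Pool.Agent.Helper49.MD Pool.Agent.Helper52.GF Pool.Agent.Helper89.LX
open Pool.Agent.Helper33.LIT Pool.Agent.Helper66.NJ Pool.Agent.Helper49.KL Pool.Agent.Helper84.MT
open Pool.Agent.Helper3.LF (Mon)
open Pool.Agent.Helper36.AM
open Pool.Agent.Helper47.FN (KR lftR obR)
open Pool.Agent.Helper87.NSL (cndR KnS)
open Pool.Agent.Helper95.LF (PdM NearM)

noncomputable section

/-! ### the same data -/

section congr
variable {ι : Type} [Fintype ι] [DecidableEq ι] {S : Sp} {Φ Φ' : Gau S ι} {κ : Type} {A A' : κ → Part S}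
  {R R' : ∀ k, Setoid (S.F k).Ω}

theorem adf_congr [Finite κ] (e1 : ∀ k, Φ.cp k = Φ'.cp k) (e2 : ∀ᶠ k in UF, Φ.φ k = Φ'.φ k)
    (e3 : ∀ i, ∀ᶠ k in UF, A i k = A' i k) {y : ∀ k, FD (S.F k) ι} (h : Φ.Adf A y) : Φ'.Adf A' y := by
  intro η hη
  filter_upwards [h η hη, e2, eventually_all.mpr e3] with k a b d
  obtain ⟨a1, a2, a3, a4⟩ := a
  rw [e1 k] at a2
  rw [b] at a3 a4
  exact ⟨fun i => by rw [← d i]; exact a1 i, a2, a3, a4⟩

theorem adfK_congr [Finite κ] (e1 : ∀ k, Φ.cp k = Φ'.cp k) (e2 : ∀ᶠ k in UF, Φ.φ k = Φ'.φ k)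
    (e3 : ∀ i, ∀ᶠ k in UF, A i k = A' i k) (e4 : ∀ᶠ k in UF, R k = R' k) {y : ∀ k, FD (S.F k) ι}
    (h : Φ.AdfK (LC.kz fun k => fc (R k)) A y) : Φ'.AdfK (LC.kz fun k => fc (R' k)) A' y := by
  refine ⟨adf_congr e1 e2 e3 h.1, ?_⟩
  filter_upwards [h.2, e4] with k a b
  have a' : (y k).l.leak (fc (R k)) = 0 := a
  show (y k).l.leak (fc (R' k)) = 0
  rw [← b]
  exact a'

theorem optfK_congr [Finite κ] (e1 : ∀ k, Φ.cp k = Φ'.cp k) (e2 : ∀ᶠ k in UF, Φ.φ k = Φ'.φ k)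
    (e3 : ∀ i, ∀ᶠ k in UF, A i k = A' i k) (e4 : ∀ᶠ k in UF, R k = R' k) {y : ∀ k, FD (S.F k) ι}
    (h : Φ.OptfK (LC.kz fun k => fc (R k)) A y) : Φ'.OptfK (LC.kz fun k => fc (R' k)) A' y :=
  ⟨adfK_congr e1 e2 e3 e4 h.1, fun z hz => h.2 z (adfK_congr (fun k => (e1 k).symm) (e2.mono fun _ e => e.symm)
    (fun i => (e3 i).mono fun _ e => e.symm) (e4.mono fun _ e => e.symm) hz)⟩

theorem minC_congr [Finite κ] (e1 : ∀ k, Φ.cp k = Φ'.cp k) (e2 : ∀ᶠ k in UF, Φ.φ k = Φ'.φ k)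
    (e3 : ∀ i, ∀ᶠ k in UF, A i k = A' i k) (e4 : ∀ᶠ k in UF, R k = R' k) {X : ∀ k, Setoid (S.F k).Ω}
    (h : MinC Φ R A X) : MinC Φ' R' A' X := by
  obtain ⟨G, h1, h2, h3⟩ := h.car
  refine ⟨?_, G, h1, optfK_congr e1 e2 e3 e4 h2, h3⟩
  filter_upwards [h.lit, e4] with k a b
  rw [← b]
  exact a

/-- minimal carriers, another version of the carrier -/
theorem minC_ev {X X' : ∀ k, Setoid (S.F k).Ω} (e : ∀ᶠ k in UF, X k = X' k) (h : MinC Φ R A X) : MinC Φ R A X' := by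
  obtain ⟨G, h1, h2, h3⟩ := h.car
  refine ⟨?_, G, ?_, ⟨⟨fun η hη => ?_, ?_⟩, fun y hy => ?_⟩, ?_⟩
  · filter_upwards [h.lit, e] with k a b
    rw [← b]
    exact a
  · filter_upwards [h1, e] with k a b
    rw [← b]
    exact a
  · filter_upwards [h2.1.1 η hη, e] with k a b
    rw [← b]
    exact a
  · filter_upwards [h2.1.2, e] with k a b
    rw [← b]
    exact a
  · refine (h2.2 y hy).trans (le_of_eq (ul_congr ?_))
    filter_upwards [e] with k b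
    rw [← b]
  · refine h3.congr' ?_
    filter_upwards [e] with k b
    rw [← b]

end congr

/-! ### events -/

theorem nul_im {S T : Sp} (p : Pj T S) (A : ∀ k, (T.F k).Ω → Prop) (hA : 0 < ul (T.pr A)) {X Y : Part S}
    (h0 : Nul S (fun k => h (X k) (Y k))) :
    Nul (Sp.im p A) (fun k => h (FSp.imap (p.fp k) (A k) (X k)) (FSp.imap (p.fp k) (A k) (Y k))) := by
  set d : ℝ := ul (T.pr A) / 2 with hd
  have hd0 : 0 < d := by positivity
  have h1 : ∀ᶠ k in UF, d ≤ (T.F k).pb (A k) := by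
    have h2 : Tendsto (T.pr A) UF (𝓝 (ul (T.pr A))) := ul_tendsto (Sp.UB_pr A)
    filter_upwards [h2.eventually (lt_mem_nhds (show d < ul (T.pr A) by rw [hd]; linarith))] with k hk
    exact hk.le
  have h3 : Tendsto (fun k => d⁻¹ * (h (X k) (Y k) / (S.F k).n)) UF (𝓝 0) := by
    have := Tendsto.const_mul d⁻¹ h0
    rwa [mul_zero] at this
  refine tendsto_of_tendsto_of_tendsto_of_le_of_le' tendsto_const_nhds h3
    (Eventually.of_forall fun k => div_nonneg (h_nonneg _ _) ((Sp.im p A).F k).pos.le) ?_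
  filter_upwards [h1] with k hk
  have hn := (S.F k).pos
  have e : ((Sp.im p A).F k).n = (S.F k).n := rfl
  have h4 := (h_im_split (p.fp k) (A k) (X k) (Y k)).1
  have h5 : 0 ≤ (1 - (T.F k).pb (A k)) * h (FSp.imap (p.fp k) (fun ω => ¬ A k ω) (X k))
      (FSp.imap (p.fp k) (fun ω => ¬ A k ω) (Y k)) :=
    mul_nonneg (by linarith [(T.F k).pb_le_one (A k)]) (h_nonneg _ _)
  have h6 : d * h (FSp.imap (p.fp k) (A k) (X k)) (FSp.imap (p.fp k) (A k) (Y k)) ≤ h (X k) (Y k) :=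
    (mul_le_mul_of_nonneg_right hk (h_nonneg _ _)).trans (by linarith)
  rw [e, ← mul_div_assoc]
  refine div_le_div_of_nonneg_right ?_ hn.le
  rw [inv_mul_eq_div, le_div_iff₀ hd0, mul_comm]
  exact h6

/-! ### minimal carriers with bounded rate -/

/-- the rate of the roundings -/
def c0r (ι : Type) [Fintype ι] (c : ℝ) : ℝ := rC ι * (c + 1) / Real.log 2

theorem c0r_nonneg (ι : Type) [Fintype ι] {c : ℝ} (hc : 0 ≤ c) : 0 ≤ c0r ι c := by
  have h1 := one_le_rC ι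
  have h2 : 0 < Real.log 2 := Real.log_pos (by norm_num)
  unfold c0r
  positivity

theorem rX_nv {ι : Type} [Fintype ι] [DecidableEq ι] {F : FSp} {W : Setoid F.Ω} {G : F.Ω → Matrix ι ι ℝ}
    (hW : Kn1 W G) {c : ℝ} (hc : 0 ≤ c) (hG : ∀ ω, F.μ ω ≠ 0 → Cpd (2 ^ (c * F.n)) (G ω))
    (hn : 1 + Real.sqrt F.n ≤ 1 * F.n) (ω : F.Ω) : (nv F (rX W G) ω : ℝ) ≤ 2 ^ (c0r ι c * F.n) := by
  classical
  have hl : 0 < Real.log 2 := Real.log_pos (by norm_num)
  have hl1 : Real.log 2 ≤ 1 := by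
    have := Real.log_two_lt_d9
    linarith
  have hn0 := F.pos
  obtain ⟨T, hT1, hT2⟩ := rdm_cover F.n (Pool.Agent.Helper95.LF.PdM.one (κ := ι)) (L := (c + 1) * F.n) (by
    have : 0 ≤ c * F.n := mul_nonneg hc hn0.le
    rw [add_mul]
    linarith)
  have h1 : nv F (rX W G) ω ≤ T.card := by
    apply nvf_le_card _ _ _ _ T.card (fun i => if hi : ∃ ω' : F.Ω, rv W G ω' = (T.equivFin.symm i : Matrix ι ι ℝ) then
        (Quotient.mk (rX W G) hi.choose) else Quotient.mk _ ω)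
    intro ω' h2 _
    have h3 : rv W G ω' ∈ T := by
      rw [rv_supp hW h2]
      have h4 := hG ω' h2
      apply hT2 _ (cpd_pdM h4)
      have h5 : ∀ x : ι → ℝ, x ⬝ᵥ ((1 : Matrix ι ι ℝ) *ᵥ x) = x ⬝ᵥ x := fun x => by rw [Matrix.one_mulVec]
      have h6 : (2 : ℝ) ^ (c * F.n) ≤ Real.exp ((c + 1) * F.n) := by
        rw [Real.rpow_def_of_pos (by norm_num)]
        apply Real.exp_le_exp.mpr
        have h7 : Real.log 2 * (c * F.n) ≤ 1 * (c * F.n) := mul_le_mul_of_nonneg_right hl1 (mul_nonneg hc hn0.le)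
        rw [add_mul]
        linarith
      constructor
      · intro x
        rw [h5]
        have h7 := h4.2.1 x
        have h8 : (1 : ℝ) ≤ Real.exp ((c + 1) * F.n) := Real.one_le_exp (by positivity)
        have h9 := dot_self_nonneg x
        have h10 : qf (G ω') x = x ⬝ᵥ (G ω' *ᵥ x) := rfl
        rw [h10] at h7
        nlinarith
      · intro x
        rw [h5]
        exact (h4.2.2 x).trans (mul_le_mul_of_nonneg_right h6 (dot_self_nonneg x))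
    refine ⟨T.equivFin ⟨rv W G ω', h3⟩, ?_⟩
    have hex : ∃ ω'' : F.Ω, rv W G ω'' = (T.equivFin.symm (T.equivFin ⟨rv W G ω', h3⟩) : Matrix ι ι ℝ) := by
      rw [Equiv.symm_apply_apply]
      exact ⟨ω', rfl⟩
    rw [dif_pos hex]
    apply Quotient.sound
    show rv W G ω' = rv W G hex.choose
    rw [hex.choose_spec, Equiv.symm_apply_apply]
  have h2 : (nv F (rX W G) ω : ℝ) ≤ T.card := by exact_mod_cast h1
  refine h2.trans (hT1.trans (le_of_eq ?_))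
  rw [Real.rpow_def_of_pos (by norm_num)]
  congr 1
  unfold c0r
  field_simp

/-- minimal carriers with a bound exist -/
theorem exists_minC_bd {ι : Type} [Fintype ι] [DecidableEq ι] {S : Sp} (Φ : Gau S ι) {κ : Type} [Finite κ]
    (A : κ → Part S) (R : ∀ k, Setoid (S.F k).Ω) :
    ∃ X : ∀ k, Setoid (S.F k).Ω, MinC Φ R A X ∧
      ∀ᶠ k in UF, ∀ ω, (S.F k).μ ω ≠ 0 → (nv (S.F k) (X k) ω : ℝ) ≤ 2 ^ (c0r ι (Φ.C + 1) * (S.F k).n) := by
  obtain ⟨W, G, h1, h2, h3⟩ := exists_zFD Φ A R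
  refine ⟨_, minC_of Φ (Eventually.of_forall h2) h1 h3, ?_⟩
  filter_upwards [h3.1.1 1 one_pos, sqrt_eventually S one_pos] with k a b ω _
  apply rX_nv (h2 k) (by linarith [Φ.C0]) (fun ω hω => ?_) b
  have h4 := (a.2.1 ω hω).1
  have e : (zFD (W k) (G k)).g = G k := zFD_g (h2 k)
  rw [e] at h4
  exact h4

section sys
variable {M : ℕ} {E : ℕ → ℕ} {ι : Type} {S : Sp}

theorem win_lob {s : MSys S M E ι} (i : ι) (k : ℕ) (c : ℝ) :
    (s.lf i).win c k = FLf.win (S.F k) (lob (s.lf i) k) c := rfl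

theorem gaq_cp {s s' : MSys S M E ι} (D k : ℕ) : (gaq s.Q D).cp k = (gaq s'.Q D).cp k := by
  have h1 : (gaq s.Q D).C = (gaq s'.Q D).C := rfl
  unfold Gau.cp
  rw [h1]

/-- the gauges and conditions of pairs with the same data -/
theorem pair_data {s s' : MSys S M E ι} {R R' : ∀ k, Setoid (S.F k).Ω}
    (e : ∀ᶠ k in UF, obR s R k = obR s' R' k) (D : ℕ) (c : ℝ) :
    (∀ k, (gaq s.Q D).cp k = (gaq s'.Q D).cp k) ∧ (∀ᶠ k in UF, (gaq s.Q D).φ k = (gaq s'.Q D).φ k) ∧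
      (∀ i, ∀ᶠ k in UF, cndR s R c i k = cndR s' R' c i k) ∧ ∀ᶠ k in UF, R k = R' k := by
  have e1 : ∀ᶠ k in UF, ob s k = ob s' k := e.mono fun k hk => congrArg Prod.fst hk
  have e2 : ∀ᶠ k in UF, R k = R' k := e.mono fun k hk => congrArg Prod.snd hk
  refine ⟨fun k => gaq_cp D k, ?_, fun i => ?_, e2⟩
  · filter_upwards [e1] with k hk
    have h1 : s.Q.v k = s'.Q.v k := congrArg FMs.Q hk
    funext ω A
    show Pool.Agent.Helper3.LF.phi (S.dl 1 k) A (s.Q.v k ω) = Pool.Agent.Helper3.LF.phi (S.dl 1 k) A (s'.Q.v k ω)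
    rw [h1]
  · cases i with
    | none =>
      filter_upwards [e2] with k hk
      show fc (R k) = fc (R' k)
      rw [hk]
    | some i =>
      filter_upwards [e1] with k hk
      show (s.lf i).win c k = (s'.lf i).win c k
      have h1 : lob (s.lf i) k = lob (s'.lf i) k := congrArg (fun x : FMs (S.F k).Ω M ι => x.lf i) hk
      rw [win_lob, win_lob, h1]

theorem minC_data [Finite ι] {s s' : MSys S M E ι} {R R' : ∀ k, Setoid (S.F k).Ω}
    (e : ∀ᶠ k in UF, obR s R k = obR s' R' k) {D : ℕ} {c : ℝ} {X : ∀ k, Setoid (S.F k).Ω}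
    (h : MinC (gaq s.Q D) R (cndR s R c) X) : MinC (gaq s'.Q D) R' (cndR s' R' c) X := by
  obtain ⟨a1, a2, a3, a4⟩ := pair_data e D c
  exact minC_congr a1 a2 a3 a4 h

/-- LITERAL OPTIMAL K-FORMS of a pair -/
structure Lop (s : MSys S M E ι) (R : ∀ k, Setoid (S.F k).Ω) (D : ℕ) (c : ℝ) (W : ∀ k, Setoid (S.F k).Ω)
    (G : ∀ k, (S.F k).Ω → Matrix (Mon M D) (Mon M D) ℝ) : Prop where
  kn : ∀ᶠ k in UF, Kn1 (W k) (G k)
  lit : ∀ᶠ k in UF, R k ⊓ (S.F k).Z ≤ W k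
  opt : (gaq s.Q D).OptfK (LC.kz fun k => fc (R k)) (cndR s R c) (fun k => zFD (W k) (G k))

/-- CLOSURE OF THE OPTIMAL FORMS in a class of pairs: literal optimal forms stay optimal on events of extensions and along
slow diagonals -/
structure OptCl (TT : ∀ S : Sp, MSys S M E ι → (∀ k, Setoid (S.F k).Ω) → Prop) (D : ℕ) (c : ℝ) : Prop where
  im : ∀ S s R, TT S s R → ∀ (W : ∀ k, Setoid (S.F k).Ω) (G : ∀ k, (S.F k).Ω → Matrix (Mon M D) (Mon M D) ℝ),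
    Lop s R D c W G → ∀ (T : Sp) (p : Pj T S) (A : ∀ k, (T.F k).Ω → Prop) (hA : 0 < ul (T.pr A)),
      Lop (S := Sp.im p A) (s.im p A hA) R D c W G
  dg : ∀ (S : ℕ → Sp) (s : ∀ j, MSys (S j) M E ι) (R : ∀ j k, Setoid ((S j).F k).Ω), (∀ j, TT (S j) (s j) (R j)) →
    ∀ (W : ∀ j k, Setoid ((S j).F k).Ω) (G : ∀ j k, ((S j).F k).Ω → Matrix (Mon M D) (Mon M D) ℝ),
      (∀ j, Lop (s j) (R j) D c (W j) (G j)) → ∃ Ec : ℕ → ℕ → ℕ → Prop, (∀ i j, ∀ᶠ k in UF, Ec i j k) ∧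
        ∀ (J : ℕ → ℕ) (h : Slo S Ec J) (s' : MSys (dsp S J h.lim) M E ι) (R' : ∀ k, Setoid ((dsp S J h.lim).F k).Ω),
          TT _ s' R' → (∀ᶠ k in UF, obR s' R' k = obR (s (J k)) (R (J k)) k) →
            Lop s' R' D c (fun k => W (J k) k) (fun k => G (J k) k)

/-- THE CLASS OF PAIRS WITH MINIMAL CARRIERS (degree `D`, window `c`) of rate `c0` -/
def mcl (TT : ∀ S : Sp, MSys S M E ι → (∀ k, Setoid (S.F k).Ω) → Prop) (D : ℕ) (c c0 : ℝ) :
    (KX (KR M ι) Unit).Pd := fun S x =>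
  ∃ (s : MSys S M E ι) (R X : ∀ k, Setoid (S.F k).Ω), (∀ᶠ k in UF, obX (obR s R) (fun _ => X) k = x k) ∧ TT S s R ∧
    MinC (gaq s.Q D) R (cndR s R c) X ∧
    ∀ᶠ k in UF, ∀ ω, (S.F k).μ ω ≠ 0 → (nv (S.F k) (X k) ω : ℝ) ≤ 2 ^ (c0 * (S.F k).n)


variable {TT : ∀ S : Sp, MSys S M E ι → (∀ k, Setoid (S.F k).Ω) → Prop} {D : ℕ} {c c0 : ℝ}

theorem MinC.lop {s : MSys S M E ι} {R : ∀ k, Setoid (S.F k).Ω} {X : ∀ k, Setoid (S.F k).Ω}
    (hX : MinC (gaq s.Q D) R (cndR s R c) X) : ∃ G : ∀ k, (S.F k).Ω → Matrix (Mon M D) (Mon M D) ℝ,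
      Lop s R D c X G ∧ Nul S (fun k => h (fc (X k)) (fc (Setoid.ker fun ω => rdm (S.F k).n (G k ω)))) := by
  obtain ⟨G, h1, h2, h3⟩ := hX.car
  exact ⟨G, ⟨h1, hX.lit, h2⟩, h3⟩

theorem Lop.minC {s : MSys S M E ι} {R : ∀ k, Setoid (S.F k).Ω} {X : ∀ k, Setoid (S.F k).Ω}
    {G : ∀ k, (S.F k).Ω → Matrix (Mon M D) (Mon M D) ℝ} (h : Lop s R D c X G)
    (h3 : Nul S (fun k => Pool.Agent.Helper31.EC.h (fc (X k)) (fc (Setoid.ker fun ω => rdm (S.F k).n (G k ω))))) :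
    MinC (gaq s.Q D) R (cndR s R c) X := ⟨h.lit, G, h.kn, h.opt, h3⟩

end sys

end

end Pool.Agent.Helper95.VIS
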