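import Pool.Agent.Helper95.VIS.Vs
import Pool.Agent.Helper32.DGY.Car
import Pool.Agent.Helper29.MX.St2

/-! CLASSES OF PAIRS WITH LEAST CARRIERS (`Mc` of Helper29/MX/St2), any resolution. Limits of least carriers; the pairs
with attached least carriers are a class; if in every subclass there is one member whose least carrier is known to the
cells of level `e`, the least carriers of all members are. -/

set_option autoImplicit false

namespace Pool.Agent.Helper95.VIS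

open Finset Filter Topology Matrix Pool.Agent.Helper69.RK Pool.Agent.Helper31.EC Pool.Agent.Helper31.EC.Sp
open Pool.Agent.Helper40.EL Pool.Agent.Helper49.MD Pool.Agent.Helper52.GF Pool.Agent.Helper89.LX
open Pool.Agent.Helper33.LIT Pool.Agent.Helper66.NJ Pool.Agent.Helper49.KL Pool.Agent.Helper84.MT
open Pool.Agent.Helper3.LF (Mon)
open Pool.Agent.Helper36.AM
open Pool.Agent.Helper47.FN (KR lftR obR lftR_ob)
open Pool.Agent.Helper87.NSL (cndR KnS)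
open Pool.Agent.Helper29.MX
open Pool.Agent.Helper99.MX (CAN gfx gfx_kn mcc mcn mci mc_uniq minC_mc exists_frx fcar_lit frm_degw wnn mc_minC)
open Pool.Agent.Helper32.DGY (frl canE can_dg nulE_ev)
open Pool.Agent.Helper26.BXD (fP fP_ev)

noncomputable section

variable {N : ℕ} {E : ℕ → ℕ} {ι : Type}

/-- labels without leak at the windows of the types which are coarser than `R` and the base are K-labels -/
theorem klb_of_tlb {S : Sp} {s : MSys S N E ι} {R : Rsl S} {c : ℝ} {X : Rsl S} (h : TLb s c (Lab.ofZ X))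
    (hlit : ∀ᶠ k in UF, R k ⊓ (S.F k).Z ≤ X k) : KLb s R c (Lab.ofZ X) := by
  have e1 := kz_ofZ (S := S) (R := R) (Z := X) hlit
  refine ⟨fun i => ?_, e1⟩
  rcases i with _ | i
  · exact LC.kz_nul e1
  · exact h i

section bd
variable [Finite ι] {S : Sp} {s : MSys S N E ι} {R : Rsl S} {w : Fin N → ℝ} {c : ℝ} {κ : ℕ}

/-- least carriers of bounded rate -/
theorem exists_mc_bd (hw : ∀ j, 1 ≤ w j) (hκ : ∀ j, w j ≤ κ) (h0 : 0 ≤ c) (h1 : ∀ j, w j * c < 1)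
    (hT : (N : ℝ) - (∑ j, w j) * c ≤ volKO s R c) {X : Rsl S} (hX : Mc s R w c X) :
    ∃ X' : Rsl S, Mc s R w c X' ∧ ∀ᶠ k in UF, ∀ ω, (S.F k).μ ω ≠ 0 → (nv (S.F k) (X' k) ω : ℝ) ≤
      2 ^ (c0r (Mon N ((κ + 1) ^ N)) (2 * ((κ + 1) ^ N : ℕ) + 1 + 1) * (S.F k).n) := by
  obtain ⟨f⟩ := hX.fr
  have h2 := fcar_lit hw hκ h0 h1 hT hX.kl f ((κ + 1) ^ N)
  have h3 := minC_of (gaq s.Q ((κ + 1) ^ N)) (Eventually.of_forall fun k => gfx_kn f ((κ + 1) ^ N) κ k) hX.lit h2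
  have h4 := exists_frx f (frm_degw f h0 hw hκ) (wnn hw h0) (fun i => (h1 i).le) (le_refl ((κ + 1) ^ N))
  refine ⟨_, minC_mc hw hκ h0 h1 hT h3 h4, ?_⟩
  filter_upwards [h2.1.1 1 one_pos, sqrt_eventually S one_pos] with k a b ω _
  have hC : (gaq s.Q ((κ + 1) ^ N)).C = 2 * ((κ + 1) ^ N : ℕ) + 1 := rfl
  apply rX_nv (gfx_kn f ((κ + 1) ^ N) κ k) (by positivity) (fun ω hω => ?_) b
  have h5 := (a.2.1 ω hω).1
  have e : (zFD (X k) (gfx f ((κ + 1) ^ N) κ k)).g = gfx f ((κ + 1) ^ N) κ k := zFD_g (gfx_kn f ((κ + 1) ^ N) κ k)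
  rw [e] at h5
  unfold Gau.cp at h5
  rw [hC] at h5
  exact h5

end bd

section dg
variable [Finite ι] {w : Fin N → ℝ} {c : ℝ} {κ : ℕ} {S : ℕ → Sp}

/-- LIMITS OF LEAST CARRIERS, one window, any resolutions -/
theorem mc_dgR (hw : ∀ j, 1 ≤ w j) (hκ : ∀ j, w j ≤ κ) (h0 : 0 ≤ c) (h1 : ∀ j, w j * c < 1)
    (s : ∀ j, MSys (S j) N E ι) (R X : ∀ j, Rsl (S j)) (hX : ∀ j, Mc (s j) (R j) w c (X j)) :
    ∃ Q : ℕ → ℕ → ℕ → Prop, (∀ i j, ∀ᶠ k in UF, Q i j k) ∧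
      ∀ (J : ℕ → ℕ) (h : Slo S Q J) (t : MSys (dsp S J h.lim) N E ι) (R' : Rsl (dsp S J h.lim)),
        (∀ᶠ k in UF, obR t R' k = obR (s (J k)) (R (J k)) k) →
          (N : ℝ) - (∑ i, w i) * c ≤ volKO t R' c → Mc t R' w c fun k => X (J k) k := by
  have hT : ∀ j, TLb (s j) c (Lab.ofZ (X j)) := fun j i => (hX j).kl.1 (some i)
  choose f _ using fun j => (show ∃ _ : Frm (s j).Q (Lab.ofZ (X j)) fun i => w i * c, True from
    ⟨(hX j).fr.some, trivial⟩)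
  have hC : ∀ j, CAN (f j) ((κ + 1) ^ N) κ := fun j => mcn hw hκ h0 (fun i => (h1 i).le) (hX j) (f j) le_rfl
  obtain ⟨Q1, hQ1, h2⟩ := frl s X hT f
  refine ⟨fun i j k => Q1 i j k ∧ canE f ((κ + 1) ^ N) κ j k ∧ R j k ⊓ ((S j).F k).Z ≤ X j k,
    fun i j => (hQ1 i j).and (Eventually.and ((nulE_ev (S := S)
    (f := fun j k => Pool.Agent.Helper31.EC.h (fc (X j k)) (fc (Setoid.ker fun ω : ((S j).F k).Ω =>
      rdm ((S j).F k).n (gfx (f j) ((κ + 1) ^ N) κ k ω)))) (hC j)).and (fP_ev (f j))) (hX j).lit),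
    fun J h t R' ht hv => ?_⟩
  have e1 : ∀ᶠ k in UF, ob t k = ob (s (J k)) k := ht.mono fun k hk => congrArg Prod.fst hk
  have e2 : ∀ᶠ k in UF, R' k = R (J k) k := ht.mono fun k hk => congrArg Prod.snd hk
  obtain ⟨h3, F, hF1, hF2⟩ := h2 J h.left t e1
  have h4 := can_dg (κ := κ) (D := (κ + 1) ^ N) f h.tend h.lim ((h.slow 0).mono fun k hk => hk.2.1) F hF2
  have h5 : ∀ᶠ k in UF, R' k ⊓ ((dsp S J h.lim).F k).Z ≤ X (J k) k := by
    filter_upwards [h.slow 0, e2] with k a b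
    rw [b]
    exact a.2.2
  exact mcc hw hκ h0 h1 hv h5 (klb_of_tlb h3 h5) F h4

end dg

/-! ### the class -/

/-- THE CLASS OF PAIRS WITH LEAST CARRIERS (window `c`) of rate `c0` -/
def mcm (TT : ∀ S : Sp, MSys S N E ι → (∀ k, Setoid (S.F k).Ω) → Prop) (w : Fin N → ℝ) (c c0 : ℝ) :
    (KX (KR N ι) Unit).Pd := fun S x =>
  ∃ (s : MSys S N E ι) (R X : ∀ k, Setoid (S.F k).Ω), (∀ᶠ k in UF, obX (obR s R) (fun _ => X) k = x k) ∧ TT S s R ∧
    Mc s R w c X ∧ ∀ᶠ k in UF, ∀ ω, (S.F k).μ ω ≠ 0 → (nv (S.F k) (X k) ω : ℝ) ≤ 2 ^ (c0 * (S.F k).n)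

section cls

variable {TT : ∀ S : Sp, MSys S N E ι → (∀ k, Setoid (S.F k).Ω) → Prop} {w : Fin N → ℝ} {c c0 : ℝ} {κ : ℕ}

theorem mcm_bd {S : Sp} {x : (KX (KR N ι) Unit).Ob S} (hx : mcm TT w c c0 S x) : bdX (KR N ι) Unit c0 S x := by
  obtain ⟨s, R, X, h1, h2, h3, h4⟩ := hx
  intro j
  filter_upwards [h1, h4] with k a b ω hω
  have e1 : obY x j k = X k := by
    unfold obY
    rw [← a]
    rfl
  rw [e1]
  exact b ω hω

theorem mcm_data {S : Sp} {x : (KX (KR N ι) Unit).Ob S} (hx : mcm TT w c c0 S x) :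
    ∃ (s : MSys S N E ι) (R X : ∀ k, Setoid (S.F k).Ω), TT S s R ∧ Mc s R w c X ∧
      (∀ᶠ k in UF, obR s R k = (kxo (KR N ι) Unit).o x k) ∧
      ∀ᶠ k in UF, (kxp (KR N ι) ()).pt x k = fc (X k) := by
  obtain ⟨s, R, X, h1, h2, h3, h4⟩ := hx
  refine ⟨s, R, X, h2, h3, ?_, ?_⟩
  · filter_upwards [h1] with k a
    show _ = (kxo (KR N ι) Unit).f (S.F k) (x k)
    rw [← a]
    rfl
  · filter_upwards [h1] with k a
    show fc ((kxp (KR N ι) ()).X (S.F k) (x k)) = _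
    rw [← a]
    rfl

theorem mcm_lft (hT : Cls (lftR TT)) {S : Sp} {x : (KR N ι).Ob S}
    (hx : (kxo (KR N ι) Unit).img (mcm TT w c c0) S x) : lftR TT S x := by
  obtain ⟨x', h1, h5⟩ := hx
  obtain ⟨s, R, X, h2, _, h3, _⟩ := mcm_data h1
  refine hT.ev S (obR s R) x ?_ (lftR_ob h2)
  filter_upwards [h3, h5] with k a b
  exact a.trans b

/-- K-labels do not see the version of the data -/
theorem klb_data {S : Sp} {s s' : MSys S N E ι} {R R' : ∀ k, Setoid (S.F k).Ω}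
    (e : ∀ᶠ k in UF, obR s R k = obR s' R' k) {l : Lab S} (h : KLb s R c l) : KLb s' R' c l := by
  obtain ⟨-, -, a3, a4⟩ := pair_data e 0 c
  refine ⟨fun i => ?_, ?_⟩
  · refine (h.1 i).congr' ?_
    filter_upwards [a3 i] with k hk
    rw [hk]
  · filter_upwards [h.2, a4] with k a b
    have a' : (l k).leak (fc (R k)) = 0 := a
    show (l k).leak (fc (R' k)) = 0
    rw [← b]
    exact a'

/-- frames of close points -/
theorem frm_ev {S : Sp} {Q Q' : S.VV N} (e : ∀ᶠ k in UF, Q.v k = Q'.v k) {l : Lab S} {La : Fin N → ℝ}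
    (f : Frm Q l La) : Nonempty (Frm Q' l La) := by
  refine ⟨⟨f.X, f.P, f.tri, f.red, f.fn, f.bd, ?_⟩⟩
  obtain ⟨K, hK, h1⟩ := f.pt
  refine ⟨K, hK, ?_⟩
  filter_upwards [h1, e] with k a b ω hω j
  have e1 : (l.pj.vv Q').v k ω j = (l.pj.vv Q).v k ω j := congrFun (congrFun b.symm ((l.pj.π k) ω)) j
  rw [e1]
  exact a ω hω j

theorem mc_data {S : Sp} {s s' : MSys S N E ι} {R R' : ∀ k, Setoid (S.F k).Ω}
    (e : ∀ᶠ k in UF, obR s R k = obR s' R' k) {X : ∀ k, Setoid (S.F k).Ω} (h : Mc s R w c X) : Mc s' R' w c X := by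
  have e1 : ∀ᶠ k in UF, ob s k = ob s' k := e.mono fun k hk => congrArg Prod.fst hk
  have e2 : ∀ᶠ k in UF, R k = R' k := e.mono fun k hk => congrArg Prod.snd hk
  have e3 : ∀ᶠ k in UF, s.Q.v k = s'.Q.v k := e1.mono fun k hk => congrArg FMs.Q hk
  refine ⟨?_, klb_data e h.kl, ?_, fun l hl hf => ?_⟩
  · filter_upwards [h.lit, e2] with k a b
    rw [← b]
    exact a
  · exact frm_ev e3 h.fr.some
  · exact h.min l (klb_data (e.mono fun _ hk => hk.symm) hl) (frm_ev (e3.mono fun _ hk => hk.symm) hf.some)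

theorem mcm_uniq {S : Sp} {x y : (KX (KR N ι) Unit).Ob S} (hx : mcm TT w c c0 S x) (hy : mcm TT w c c0 S y)
    (e : ∀ᶠ k in UF, (kxo (KR N ι) Unit).o x k = (kxo (KR N ι) Unit).o y k) :
    Eqn ((kxp (KR N ι) ()).pt x) ((kxp (KR N ι) ()).pt y) := by
  obtain ⟨s, R, X, -, a2, a3, a4⟩ := mcm_data hx
  obtain ⟨s', R', X', -, b2, b3, b4⟩ := mcm_data hy
  have e1 : ∀ᶠ k in UF, obR s' R' k = obR s R k := by
    filter_upwards [a3, b3, e] with k u v w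
    rw [u, v, w]
  have h1 := mc_data e1 b2
  exact (Eqn.of_ev a4).trans (Eqn.trans ⟨mc_uniq a2 h1, mc_uniq h1 a2⟩ (Eqn.of_ev b4).symm)

variable [Finite ι]

theorem mcm_dg (hw : ∀ j, 1 ≤ w j) (hκ : ∀ j, w j ≤ κ) (h0 : 0 ≤ c) (h1 : ∀ j, w j * c < 1) (hT : Cls (lftR TT))
    (hv : ∀ S s R, TT S s R → (N : ℝ) - (∑ j, w j) * c ≤ volKO s R c) : DiagCl (mcm TT w c c0) := by
  intro S x hx
  choose s R X h2 h3 h4 h5 using hx
  obtain ⟨E1, hE1, f1⟩ := hT.dg S (fun j => obR (s j) (R j)) fun j => lftR_ob (h3 j)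
  obtain ⟨E2, hE2, f2⟩ := mc_dgR hw hκ h0 h1 s R X h4
  refine ⟨fun i j k => E1 i j k ∧ E2 i j k ∧ obX (obR (s j) (R j)) (fun _ => X j) k = x j k ∧
      ∀ ω, ((S j).F k).μ ω ≠ 0 → (nv ((S j).F k) (X j k) ω : ℝ) ≤ 2 ^ (c0 * ((S j).F k).n), ?_, ?_⟩
  · intro i j
    exact (hE1 i j).and ((hE2 i j).and ((h2 j).and (h5 j)))
  · intro J hJ
    have a1 := f1 J hJ.left
    have a2 := f2 J hJ.right.left
    have a3 := hJ.right.right.slow
    obtain ⟨s', R', b1, b2, b3⟩ := a1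
    have b4 : ∀ᶠ k in UF, obR s' R' k = obR (s (J k)) (R (J k)) k := obR_ev b1 b2
    refine ⟨s', R', fun k => X (J k) k, ?_, b3, a2 s' R' b4 (hv _ _ _ b3), ?_⟩
    · filter_upwards [b4, a3 0] with k d1 d2
      refine Eq.trans ?_ d2.1
      exact Prod.ext d1 rfl
    · filter_upwards [a3 0] with k d2
      exact d2.2

theorem mcm_im (hw : ∀ j, 1 ≤ w j) (h0 : 0 ≤ c) (h1 : ∀ j, w j * c < 1)
    (hi : ∀ S s R, TT S s R → ∀ (T : Sp) (p : Pj T S) (A : ∀ k, (T.F k).Ω → Prop) (hA : 0 < ul (T.pr A)),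
      TT (Sp.im p A) (s.im p A hA) R)
    (hv : ∀ S s R, TT S s R → (N : ℝ) - (∑ j, w j) * c ≤ volKO s R c) : ImCl (mcm TT w c c0) := by
  rintro S x ⟨s, R, X, h2, h3, h4, h5⟩ T p A hA
  have h6 := hi S s R h3 T p A hA
  refine ⟨s.im p A hA, R, X, ?_, h6, mci p A hA hw h0 h1 (hv _ _ _ h6) h4, ?_⟩
  · filter_upwards [h2] with k d2
    have e1 : (KX (KR N ι) Unit).imo x p A k = (KX (KR N ι) Unit).im (p.fp k) (A k) (obX (obR s R) (fun _ => X) k) := by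
      rw [d2]
      rfl
    rw [e1]
    rfl
  · filter_upwards [h5] with k d ω hω
    have e1 := nv_im_le (p.fp k) (A k) (X k) ω
    have e2 : (nv (FSp.im (p.fp k) (A k)) (X k) ω : ℝ) ≤ nv (S.F k) (X k) ω := by exact_mod_cast e1
    exact e2.trans (d ω (FSp.im_supp (p.fp k) (A k) ω hω))

/-- **VISIBILITY OF THE LEAST CARRIERS**, one window, one level: if in every class inside `TT` there is a member with a
least carrier which is known to the cells of level `e` of the point, the least carriers of ALL members of `TT` are -/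
theorem vism (hw : ∀ j, 1 ≤ w j) (h0 : 0 ≤ c) (h1 : ∀ j, w j * c < 1) (hT : Cls (lftR TT))
    (hi : ∀ S s R, TT S s R → ∀ (T : Sp) (p : Pj T S) (A : ∀ k, (T.F k).Ω → Prop) (hA : 0 < ul (T.pr A)),
      TT (Sp.im p A) (s.im p A hA) R)
    (hv : ∀ S s R, TT S s R → (N : ℝ) - (∑ j, w j) * c ≤ volKO s R c) (e : ℝ)
    (hin : ∀ C' : (KR N ι).Pd, Cls C' → (∀ S x, C' S x → lftR TT S x) →
      ∃ (S : Sp) (s : MSys S N E ι) (R X : ∀ k, Setoid (S.F k).Ω), TT S s R ∧ C' S (obR s R) ∧ Mc s R w c X ∧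
        Nul S (fun k => h (fc (X k)) (pcr s.Q e k))) :
    ∀ (S : Sp) (s : MSys S N E ι) (R : ∀ k, Setoid (S.F k).Ω), TT S s R → ∀ X : ∀ k, Setoid (S.F k).Ω,
      Mc s R w c X → Nul S (fun k => h (fc (X k)) (pcr s.Q e k)) := by
  obtain ⟨κ, hκ⟩ : ∃ κ : ℕ, ∀ j, w j ≤ κ := by
    obtain ⟨κ, hκ⟩ := exists_nat_ge (∑ j, w j)
    exact ⟨κ, fun j => (Finset.single_le_sum (fun i _ => zero_le_one.trans (hw i)) (Finset.mem_univ j)).trans hκ⟩
  obtain ⟨c0, hc0⟩ : ∃ c0 : ℝ, c0 = c0r (Mon N ((κ + 1) ^ N)) (2 * ((κ + 1) ^ N : ℕ) + 1 + 1) := ⟨_, rfl⟩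
  have h00 : 0 ≤ c0 := by
    rw [hc0]
    exact c0r_nonneg _ (by positivity)
  intro S0 s0 R0 hs0 X0 hX0
  have hbd : ∀ (S : Sp) (s : MSys S N E ι) (R : ∀ k, Setoid (S.F k).Ω), TT S s R → ∀ X : ∀ k, Setoid (S.F k).Ω,
      Mc s R w c X → ∃ X' : ∀ k, Setoid (S.F k).Ω, Mc s R w c X' ∧
        mcm TT w c c0 S (obX (obR s R) (fun _ => X')) := by
    intro S s R hs X hX
    obtain ⟨X', h2, h3⟩ := exists_mc_bd hw hκ h0 h1 (hv S s R hs) hX
    rw [← hc0] at h3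
    exact ⟨X', h2, s, R, X', Eventually.of_forall fun _ => rfl, hs, h2, h3⟩
  have hC : Cls (mcm TT w c c0) := by
    refine ⟨mcm_dg hw hκ h0 h1 hT hv, mcm_im hw h0 h1 hi hv, ?_, ?_⟩
    · rintro S x y e ⟨s, R, X, h1, h2⟩
      refine ⟨s, R, X, ?_, h2⟩
      filter_upwards [e, h1] with k a b
      exact b.trans a
    · obtain ⟨X', -, h3⟩ := hbd S0 s0 R0 hs0 X0 hX0
      exact ⟨S0, _, h3⟩
  have main := viso_abs (K := KR N ι) hC h00 (fun S x hx => mcm_bd hx) (fun S x y hx hy e => mcm_uniq hx hy e)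
    (puL N ι e) (by
      intro C' hC' hsub
      obtain ⟨S, s, R, X, h1, h2, h3, h4⟩ := hin C' hC' fun S x hx => mcm_lft hT (hsub S x hx)
      obtain ⟨X', h5, h6⟩ := hbd S s R h1 X h3
      exact ⟨S, obX (obR s R) (fun _ => X'), h6, h2, Nul.h_tri (mc_uniq h5 h3) h4⟩)
  obtain ⟨X', h5, h6⟩ := hbd S0 s0 R0 hs0 X0 hX0
  have h9 : Nul S0 (fun k => h (fc (X' k)) (pcr s0.Q e k)) := main S0 (obX (obR s0 R0) (fun _ => X')) h6
  exact Nul.h_tri (mc_uniq hX0 h5) h9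

end cls

end

end Pool.Agent.Helper95.VIS
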