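import Pool.Agent.Helper95.VIS.Mcl

/-! CLASSES OF PAIRS WITH MINIMAL CARRIERS, part 2: the pairs with attached minimal carriers are a class. VISO for every
member of the class. -/

set_option autoImplicit false

namespace Pool.Agent.Helper95.VIS

open Finset Filter Topology Matrix Pool.Agent.Helper69.RK Pool.Agent.Helper31.EC Pool.Agent.Helper31.EC.Sp
open Pool.Agent.Helper40.EL Pool.Agent.Helper49.MD Pool.Agent.Helper52.GF Pool.Agent.Helper89.LX
open Pool.Agent.Helper33.LIT Pool.Agent.Helper66.NJ Pool.Agent.Helper49.KL Pool.Agent.Helper84.MT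
open Pool.Agent.Helper3.LF (Mon)
open Pool.Agent.Helper36.AM
open Pool.Agent.Helper47.FN (KR lftR obR lftR_ob)
open Pool.Agent.Helper87.NSL (cndR KnS)
open Pool.Agent.Helper95.LF (PdM NearM)

noncomputable section

section sys
variable {M : ℕ} {E : ℕ → ℕ} {ι : Type} {S : Sp}
variable {TT : ∀ S : Sp, MSys S M E ι → (∀ k, Setoid (S.F k).Ω) → Prop} {D : ℕ} {c c0 : ℝ}

theorem nul_imF {T : Sp} (p : Pj T S) (A : ∀ k, (T.F k).Ω → Prop) (hA : 0 < ul (T.pr A))
    {X Y : ∀ k, Setoid (S.F k).Ω} (h0 : Nul S (fun k => h (fc (X k)) (fc (Y k)))) :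
    Nul (Sp.im p A) (fun k => h (fc (F := (Sp.im p A).F k) (X k)) (fc (F := (Sp.im p A).F k) (Y k))) := by
  have h1 := nul_im p A hA h0
  simp only [FSp.imap_fc] at h1
  exact h1

theorem nul_rdm {T : Sp} (p : Pj T S) (A : ∀ k, (T.F k).Ω → Prop) (hA : 0 < ul (T.pr A))
    {κ : Type} [Fintype κ] {X : ∀ k, Setoid (S.F k).Ω} {G : ∀ k, (S.F k).Ω → Matrix κ κ ℝ}
    (h0 : Nul S (fun k => h (fc (X k)) (fc (Setoid.ker fun ω => rdm (S.F k).n (G k ω))))) :
    Nul (Sp.im p A) (fun k => h (fc (F := (Sp.im p A).F k) (X k))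
      (fc (F := (Sp.im p A).F k) (Setoid.ker fun ω => rdm ((Sp.im p A).F k).n (G k ω)))) := by
  have e : ∀ k, ((Sp.im p A).F k).n = (S.F k).n := fun k => rfl
  simp only [e]
  have h1 := nul_imF p A hA h0
  exact h1

theorem mcl_dg [Finite ι] (hT : Cls (lftR TT)) (hO : OptCl TT D c) : DiagCl (mcl TT D c c0) := by
  intro S x hx
  choose s R X h1 h2 h3 h4 using hx
  choose G h5 h6 using fun j => (h3 j).lop
  obtain ⟨E1, hE1, f1⟩ := hT.dg S (fun j => obR (s j) (R j)) fun j => lftR_ob (h2 j)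
  obtain ⟨E2, hE2, f2⟩ := hO.dg S s R h2 X G h5
  refine ⟨fun i j k => E1 i j k ∧ E2 i j k ∧ obX (obR (s j) (R j)) (fun _ => X j) k = x j k ∧
      h (fc (X j k)) (fc (Setoid.ker fun ω => rdm ((S j).F k).n (G j k ω))) / ((S j).F k).n ≤ 1 / ((i : ℝ) + 1) ∧
      ∀ ω, ((S j).F k).μ ω ≠ 0 → (nv ((S j).F k) (X j k) ω : ℝ) ≤ 2 ^ (c0 * ((S j).F k).n), ?_, ?_⟩
  · intro i j
    refine (hE1 i j).and ((hE2 i j).and ((h1 j).and (Eventually.and ?_ (h4 j))))
    exact (h6 j).eventually (ge_mem_nhds (by positivity))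
  · intro J hJ
    have a1 := f1 J hJ.left
    have a2 := f2 J hJ.right.left
    have a3 := hJ.right.right.slow
    obtain ⟨s', R', b1, b2, b3⟩ := a1
    have b4 : ∀ᶠ k in UF, obR s' R' k = obR (s (J k)) (R (J k)) k := obR_ev b1 b2
    have c1 := a2 s' R' b3 b4
    refine ⟨s', R', fun k => X (J k) k, ?_, b3, c1.minC ?_, ?_⟩
    · filter_upwards [b4, a3 0] with k d1 d2
      refine Eq.trans ?_ d2.1
      exact Prod.ext d1 rfl
    · show Tendsto _ UF (𝓝 0)
      rw [Metric.tendsto_nhds]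
      intro ε hε
      obtain ⟨i, hi⟩ := exists_nat_one_div_lt hε
      filter_upwards [a3 i] with k d2
      rw [Real.dist_eq, sub_zero, abs_of_nonneg (div_nonneg (h_nonneg _ _) (FSp.pos _).le)]
      exact lt_of_le_of_lt d2.2.1 hi
    · filter_upwards [a3 0] with k d2
      exact d2.2.2

theorem mcl_im [Finite ι] (hT : Cls (lftR TT)) (hO : OptCl TT D c) : ImCl (mcl TT D c c0) := by
  rintro S x ⟨s, R, X, h1, h2, h3, h4⟩ T p A hA
  obtain ⟨G, h5, h6⟩ := h3.lop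
  obtain ⟨s', R', b1, b2, b3⟩ := hT.im S (obR s R) (lftR_ob h2) T p A hA
  have b4 : ∀ᶠ k in UF, obR s' R' k = obR (S := Sp.im p A) (s.im p A hA) R k := obR_ev b1 b2
  have c1 := hO.im S s R h2 X G h5 T p A hA
  have c2 : MinC (gaq (s.im p A hA).Q D) R (cndR (s.im p A hA) R c) X := c1.minC (nul_rdm p A hA h6)
  refine ⟨s', R', X, ?_, b3, minC_data (b4.mono fun _ e => e.symm) c2, ?_⟩
  · filter_upwards [b4, h1] with k d1 d2
    have e1 : (KX (KR M ι) Unit).imo x p A k = (KX (KR M ι) Unit).im (p.fp k) (A k) (obX (obR s R) (fun _ => X) k) := by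
      rw [d2]
      rfl
    rw [e1]
    exact Prod.ext d1 rfl
  · filter_upwards [h4] with k d ω hω
    have e1 := nv_im_le (p.fp k) (A k) (X k) ω
    have e2 : (nv (FSp.im (p.fp k) (A k)) (X k) ω : ℝ) ≤ nv (S.F k) (X k) ω := by exact_mod_cast e1
    exact e2.trans (d ω (FSp.im_supp (p.fp k) (A k) ω hω))

theorem mcl_ne [Finite ι] (hT : Cls (lftR TT)) (h0 : c0r (Mon M D) (2 * D + 1 + 1) ≤ c0) :
    ∃ (S : Sp) (x : (KX (KR M ι) Unit).Ob S), mcl TT D c c0 S x := by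
  obtain ⟨S, x, s, R, h1, h2, h3⟩ := hT.ne
  obtain ⟨X, h4, h5⟩ := exists_minC_bd (gaq s.Q D) (cndR s R c) R
  refine ⟨S, obX (obR s R) (fun _ => X), s, R, X, Eventually.of_forall fun _ => rfl, h3, h4, ?_⟩
  filter_upwards [h5] with k hk ω hω
  refine (hk ω hω).trans ?_
  apply Real.rpow_le_rpow_of_exponent_le (by norm_num)
  exact mul_le_mul_of_nonneg_right h0 (S.F k).pos.le

/-- the class of pairs with minimal carriers is a class -/
theorem mcl_cls [Finite ι] (hT : Cls (lftR TT)) (hO : OptCl TT D c)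
    (h0 : c0r (Mon M D) (2 * D + 1 + 1) ≤ c0) : Cls (mcl TT D c c0) where
  dg := mcl_dg hT hO
  im := mcl_im hT hO
  ev := by
    rintro S x y e ⟨s, R, X, h1, h2⟩
    refine ⟨s, R, X, ?_, h2⟩
    filter_upwards [e, h1] with k a b
    exact b.trans a
  ne := mcl_ne hT h0


end sys

end

end Pool.Agent.Helper95.VIS
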