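import Pool.Agent.Helper29.MX.St2
import Pool.Agent.Helper71.VIS.Cso
import Pool.Agent.Helper5.TRY.Mc

/-! THE ROUNDED POINT: K-labels, frames and least carriers of `rd s` are those of `s`; the rounded point is a function of
its cells of level one. -/

set_option autoImplicit false

namespace Pool.Agent.Helper95.VIS

open Finset Filter Topology Matrix Pool.Agent.Helper69.RK Pool.Agent.Helper31.EC Pool.Agent.Helper31.EC.Sp
open Pool.Agent.Helper40.EL Pool.Agent.Helper84.MT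
open Pool.Agent.Helper36.AM
open Pool.Agent.Helper29.MX
open Pool.Agent.Helper89.RAK (rnd rnd_close rnd_cell)
open Pool.Agent.Helper71.VIS (Cso)

noncomputable section

variable {S : Sp} {N : ℕ} {E : ℕ → ℕ} {ι : Type} {s : MSys S N E ι} {R : Rsl S} {w : Fin N → ℝ} {c : ℝ}

theorem klb_rd {l : Lab S} : KLb (rd s) R c l ↔ KLb s R c l := by
  have h1 : Pool.Agent.Helper87.NSL.cndR (rd s) R c = Pool.Agent.Helper87.NSL.cndR s R c := by
    funext i
    cases i <;> rfl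
  unfold KLb
  rw [h1]

/-- frames of close points -/
theorem frm_close {Q Q' : S.VV N} {K : ℕ → ℝ} (hK : S.Sub K) (h : ∀ᶠ k in UF, ∀ ω, (S.F k).μ ω ≠ 0 → ∀ j,
    |Q'.v k ω j - Q.v k ω j| ≤ K k * S.dl 1 k) {l : Lab S} {La : Fin N → ℝ} (f : Frm Q l La) :
    Nonempty (Frm Q' l La) := by
  obtain ⟨K', hK', h2⟩ := f.pt
  refine ⟨⟨f.X, f.P, f.tri, f.red, f.fn, f.bd, fun k => K' k + K k, hK'.add hK, ?_⟩⟩
  filter_upwards [h, h2] with k a b ω hω j
  have h3 := b ω hω j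
  have h4 := a ((l k).p.π ω) ((l k).p.supp ω hω) j
  have e1 : (l.pj.vv Q').v k ω j = Q'.v k ((l k).p.π ω) j := rfl
  have e2 : (l.pj.vv Q).v k ω j = Q.v k ((l k).p.π ω) j := rfl
  rw [e2] at h3
  rw [e1, add_mul]
  have h5 := abs_le.mp h3
  have h6 := abs_le.mp h4
  rw [abs_le]
  constructor
  · linarith [h5.1, h6.1]
  · linarith [h5.2, h6.2]

theorem frm_rd {Q : S.VV N} {l : Lab S} {La : Fin N → ℝ} : Nonempty (Frm (rnd Q) l La) ↔ Nonempty (Frm Q l La) := by
  constructor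
  · rintro ⟨f⟩
    refine frm_close (K := fun _ => 1) (S.Sub_const zero_le_one) (Eventually.of_forall fun k ω _ j => ?_) f
    rw [one_mul, abs_sub_comm]
    exact rnd_close Q k ω j
  · rintro ⟨f⟩
    refine frm_close (K := fun _ => 1) (S.Sub_const zero_le_one) (Eventually.of_forall fun k ω _ j => ?_) f
    rw [one_mul]
    exact rnd_close Q k ω j

/-- least carriers of the rounded point -/
theorem mc_rd {X : Rsl S} : Mc (rd s) R w c X ↔ Mc s R w c X := by
  constructor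
  · intro h
    exact ⟨h.lit, klb_rd.mp h.kl, frm_rd.mp h.fr, fun l hl hf => h.min l (klb_rd.mpr hl) (frm_rd.mpr hf)⟩
  · intro h
    exact ⟨h.lit, klb_rd.mpr h.kl, frm_rd.mpr h.fr, fun l hl hf => h.min l (klb_rd.mp hl) (frm_rd.mp hf)⟩

/-- cells of the rounded point -/
theorem rnd_cellv (Q : S.VV N) (k : ℕ) : (rnd Q).cellv 1 k = Q.cellv 1 k := by
  funext ω i
  have hd := (S.dl_pos 1 k).ne'
  show ⌊(⌊Q.v k ω i / S.dl 1 k⌋ : ℝ) * S.dl 1 k / S.dl 1 k⌋ = ⌊Q.v k ω i / S.dl 1 k⌋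
  rw [mul_div_cancel_right₀ _ hd, Int.floor_intCast]

theorem vis_rd (s : MSys S N E ι) : vis (rd s).Q = vis s.Q := by
  funext k
  show Setoid.ker ((rnd s.Q).cellv 1 k) = Setoid.ker (s.Q.cellv 1 k)
  rw [rnd_cellv]

/-- the rounded point is a function of its cells -/
theorem pt_vis_rd (s : MSys S N E ι) : Pt (rd s) (vis (rd s).Q) := by
  rw [vis_rd]
  exact Eventually.of_forall fun k ω ω' _ _ _ h => rnd_cell s.Q k h

theorem pt_rd (h : Pt s R) : Pt (rd s) R := by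
  have h' : Pool.Agent.Helper87.NSL.KnS R s.Q.v := h
  show Pool.Agent.Helper87.NSL.KnS R (rnd s.Q).v
  filter_upwards [h'] with k hk ω ω' a b z r
  have h1 : s.Q.v k ω = s.Q.v k ω' := hk ω ω' a b z r
  funext i
  show (⌊s.Q.v k ω i / S.dl 1 k⌋ : ℝ) * S.dl 1 k = (⌊s.Q.v k ω' i / S.dl 1 k⌋ : ℝ) * S.dl 1 k
  rw [h1]

/-- the cells of level one of the rounded truncation are the cells of level `e` -/
theorem vis_trn (s : MSys S N E ι) {e : ℝ} (he : 0 < e) (h1 : e ≤ 1) (k : ℕ) :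
    vis (rd (s.trn e he h1)).Q k = Setoid.ker (s.Q.cellv e k) := by
  rw [vis_rd]
  show Setoid.ker ((s.Q.chg S.tr e he).cellv 1 k) = _
  rw [Pool.Agent.Helper52.SL.cellv_chg, mul_one]
  rfl

theorem h_vis_trn (s : MSys S N E ι) {e : ℝ} (he : 0 < e) (h1 : e ≤ 1) (X : Rsl S) (k : ℕ) :
    h (fc (F := (S.chg S.tr e he).F k) (X k)) (fc (F := (S.chg S.tr e he).F k) (vis (rd (s.trn e he h1)).Q k)) =
      h (fc (X k)) (fc (Setoid.ker (s.Q.cellv e k))) := by
  rw [vis_trn]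
  exact h_chg_top (F := S.F k) e he (X k) (Setoid.ker (s.Q.cellv e k))

theorem nul_vis_trn (s : MSys S N E ι) {e : ℝ} (he : 0 < e) (h1 : e ≤ 1) (X : Rsl S)
    (h0 : Nul (S.chg S.tr e he) fun k => h (fc (F := (S.chg S.tr e he).F k) (X k))
      (fc (F := (S.chg S.tr e he).F k) (vis (rd (s.trn e he h1)).Q k))) :
    Nul S fun k => h (fc (X k)) (fc (Setoid.ker (s.Q.cellv e k))) := by
  have h2 := Pool.Agent.Helper52.SL.nul_trn.mp h0
  have e1 : (fun k => h (fc (F := (S.chg S.tr e he).F k) (X k))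
      (fc (F := (S.chg S.tr e he).F k) (vis (rd (s.trn e he h1)).Q k))) =
      fun k => h (fc (X k)) (fc (Setoid.ker (s.Q.cellv e k))) := funext fun k => h_vis_trn s he h1 X k
  rw [e1] at h2
  exact h2

end

end Pool.Agent.Helper95.VIS
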