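import Pool.Agent.Helper95.VIS.Mcm
import Pool.Agent.Helper95.VIS.Cls2
import Pool.Agent.Helper95.VIS.Rd
import Pool.Agent.Helper26.VSV.Vis
import Pool.Agent.Helper48.ROK.Numl
import Pool.Agent.Helper52.MW.Minw
import Pool.Agent.Helper5.TRY.Mc
import Pool.Agent.Helper29.HX.St

/-! ROW `VISO` of Helper29/HX/St: the least carriers of the members of `LL` are visible at the levels `e ≤ l` above the
top exponent. Input: the numbers of the present cells of the truncation of a rigid member (helper71). -/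

set_option autoImplicit false

namespace Pool.Agent.Helper95.VIS

open Finset Filter Topology Matrix Pool.Agent.Helper69.RK Pool.Agent.Helper31.EC Pool.Agent.Helper31.EC.Sp
open Pool.Agent.Helper40.EL Pool.Agent.Helper89.LX Pool.Agent.Helper84.MT
open Pool.Agent.Helper49.MD Pool.Agent.Helper36.AM Pool.Agent.Helper52.GF
open Pool.Agent.Helper47.FN (KR lftR obR)
open Pool.Agent.Helper29.MX
open Pool.Agent.Helper94.SEL
open Pool.Agent.Helper52.MW (AllE_im AllE_self cls_of cl2_cutR rigx Par.l_lt)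
open Pool.Agent.Helper48.ROK (wof_ge wsm_all wsm_wof ll_num ll_car ll_numS NumS)
open Pool.Agent.Helper71.VIS (Cso cso_vis)
open Pool.Agent.Helper5.TRY (mc_trn)

noncomputable section

/-- [V1] (helper71): the numbers of the present cells (rounded point) of the truncation at `e` of a member of `LL`, if
they are the same on all events -/
def V1R (M : ℕ) : Prop := ∀ (A : MCl (M + 1)) (C : ℕ → MCl (M + 1)) (v : ℕ), Ctx M A C v →
  ∀ (m g r e0 : ℕ) (P : Par) (W : ℝ) (a : ℕ → ℝ), W ≤ P.La → Spd M a W → MnC (C m) v r e0 P W →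
    ∀ (S : Sp) (s : MSys S (M + 1) (lin g) (Fin r)) (R : Rsl S), LL (C m) v g r e0 P a S s R →
      ∀ (e : ℝ) (he : 0 < e) (h1 : e ≤ 1), e ≤ P.l →
        AllE (fun _ t R' => Num (wof M a) t R') (S.chg S.tr e he) (s.trn e he h1) R →
        (∀ (T : Sp) (q : Pj T S) (B : ∀ k, (T.F k).Ω → Prop) (hB : 0 < ul (T.pr B)) (c : ℝ) (j : ℕ) (hj : j ≤ M + 1),
          0 ≤ c → c ≤ 1 → num (rd ((s.im q B hB).trn e he h1)) (vis (rd ((s.im q B hB).trn e he h1)).Q) hj c =
            num (rd (s.trn e he h1)) (vis (rd (s.trn e he h1)).Q) hj c) →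
        AllE (fun _ t R' => Num (wof M a) t R') (S.chg S.tr e he) (rd (s.trn e he h1)) (vis (rd (s.trn e he h1)).Q)

variable {M : ℕ}

/-- exact total numbers of the members of `LL` -/
theorem ll_tot {C : MCl (M + 1)} {v g r e0 : ℕ} {P : Par} {W : ℝ} {a : ℕ → ℝ} (hS : Spd M a W) {S : Sp}
    {s : MSys S (M + 1) (lin g) (Fin r)} {R : Rsl S} (hL : LL C v g r e0 P a S s R) {c : ℝ} (h0 : 0 ≤ c)
    (h1 : c < P.l) : volKO s R c = ((M + 1 : ℕ) : ℝ) - (∑ j, wof M a j) * c := by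
  have h2 := hL.num c h0 h1 (M + 1) le_rfl
  rw [← tot_num] at h2
  have h3 : ((M + 1 : ℕ) : ℝ) - volKO s R c = a (M + 1) * c := h2
  have h4 := wsm_wof (M := M) hS.zero (M + 1) le_rfl
  rw [wsm_all] at h4
  rw [h4]
  linarith

/-- a rational level between the exponents and `e` -/
theorem exists_rat_level {n : ℕ} {w : Fin (n + 1) → ℝ} {c e : ℝ} (h : ∀ i, w i * c < e) :
    ∃ q : ℚ, (∀ i, w i * c < q) ∧ (q : ℝ) < e := by
  have h1 : (Finset.univ : Finset (Fin (n + 1))).sup' ⟨0, Finset.mem_univ 0⟩ (fun i => w i * c) < e := by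
    rw [Finset.sup'_lt_iff]
    exact fun i _ => h i
  obtain ⟨q, h2, h3⟩ := exists_rat_btwn h1
  exact ⟨q, fun i => (Finset.le_sup' (fun i => w i * c) (Finset.mem_univ i)).trans_lt h2, h3⟩

/-- **VISO from LIMX and V1** -/
theorem viso_of (hL : LIMX M) (hV : V1R M) : Pool.Agent.Helper29.HX.VISO M := by
  intro A C v hc m g r e0 P W a hW hS hMn S s R hLL c e hc0 hel hwe X hX
  have hw : ∀ i, 1 ≤ wof M a i := wof_ge hS
  obtain ⟨q, hq1, hq2⟩ := exists_rat_level hwe
  have hcq : c < q := by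
    have h1 := hq1 0
    have h2 := hw 0
    nlinarith
  have hq0 : (0 : ℝ) < q := hc0.trans hcq
  have hql : (q : ℝ) ≤ P.l := hq2.le.trans hel
  have hl1 : P.l < 1 := Par.l_lt P
  have hq11 : (q : ℝ) ≤ 1 := hql.trans hl1.le
  have hcl : c < P.l := hcq.trans_le hql
  have hcl2 := ll_cl2 (m := m) (g := g) (r := r) (e0 := e0) (P := P) (a := a) hL hc
  have main := vism (w := wof M a) (c := c) hw hc0.le (fun i => (hq1 i).trans_le hq11)
    (cls_of hcl2 ⟨S, s, R, hLL⟩) hcl2.1 (fun S s R h => (ll_tot hS h hc0.le hcl).ge) q (by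
      intro C' hC' hsub
      have h2 : Cl2 (cutR (fun S (s : MSys S (M + 1) (lin g) (Fin r)) R => LL (C m) v g r e0 P a S s R) C') :=
        cl2_cutR hcl2 hC' hsub
      have hne : ∃ S s R, cutR (fun S (s : MSys S (M + 1) (lin g) (Fin r)) R => LL (C m) v g r e0 P a S s R) C'
          S s R := by
        obtain ⟨S, x, hx⟩ := hC'.ne
        obtain ⟨s, R, h3, h4, h5⟩ := hsub S x hx
        exact ⟨S, s, R, h5, hC'.ev S x (obR s R) ((obR_ev h3 h4).mono fun _ hk => hk.symm) hx⟩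
      obtain ⟨TT', -, ⟨S1, s1, R1, hm⟩, hr⟩ := rigx M g r _ h2 (fun S s R h => h.1.ke.bk.cl.2.1) hne
      obtain ⟨⟨hL1, hC1⟩, hrig⟩ := hr S1 s1 R1 hm
      have hP1 : Pt s1 R1 := hL1.ke.bk.cl.2.1
      have hnum := ll_num hc.st hS hL1 hq0 hq11 hql
      have hV1 := hV A C v hc m g r e0 P W a hW hS hMn S1 s1 R1 hL1 q hq0 hq11 hql hnum
        (fun T qq B hB c j hj h0 h1 => ((hrig T qq B hB).1 c j hj h0 h1).2 q hq0 hq11)
      have hcar : Car (wof M a) (s1.trn q hq0 hq11) R1 := AllE_self (ll_car hc.st hS hL1 hq0 hq11 hql)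
      have hwcq : ∀ i, wof M a i * (c / q) < 1 := fun i => by
        rw [← mul_div_assoc, div_lt_one hq0]
        exact hq1 i
      have hcq0 : 0 ≤ c / q := div_nonneg hc0.le hq0.le
      obtain ⟨X1, hX1⟩ := hcar (c / q) hcq0 hwcq
      have hX2 : Mc s1 R1 (wof M a) c X1 := by
        have h3 := (mc_trn (s := s1) (R := R1) (h0 := hq0) (h1 := hq11) hw hcq0 (fun i => (hwcq i).le)).mp hX1
        rwa [mul_div_cancel₀ _ hq0.ne'] at h3
      have hX3 : Mc (rd (s1.trn q hq0 hq11)) R1 (wof M a) (c / q) X1 := mc_rd.mpr hX1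
      have hP2 : Pt (rd (s1.trn q hq0 hq11)) R1 := pt_rd (Pool.Agent.Helper48.ROK.pt_trn hP1 q hq0 hq11)
      have hwle : ∀ c' : ℝ, 0 < c' → c' ≤ c / q → ∀ i, wof M a i * c' < 1 := fun c' _ h2 i =>
        (mul_le_mul_of_nonneg_left h2 (zero_le_one.trans (hw i))).trans_lt (hwcq i)
      have hc1 : c / q < 1 := (div_lt_one hq0).mpr hcq
      have h5 := Pool.Agent.Helper26.VSV.mc_vis hc.st (pt_vis_rd (s1.trn q hq0 hq11)) (cso_vis hP2) hw hcq0 hwcq hc1
        (fun c' a b j hj => AllE_self hV1 c' a.le (hwle c' a b) j hj)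
        (fun c' a b T p A hA j hj => hV1 T p A hA c' a.le (hwle c' a b) j hj) hX3
      refine ⟨S1, s1, R1, X1, hL1, hC1, hX2, ?_⟩
      exact nul_vis_trn s1 hq0 hq11 X1 h5)
  have h1 := main S s R hLL X hX
  exact Nul.h_tri h1 (pcr_mono s.Q hq2.le)

end

end Pool.Agent.Helper95.VIS
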