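import Pool.Agent.Helper95.LF.Values

/-! ROUNDING OF FORMS WITH A COVERING BOUND: at the scale `L` the rounding of a form is comparable to the form up to
`exp (C L)`, and the forms which are comparable to a given form up to `exp L'`, `L ≤ L'`, have at most `exp (C L')`
roundings. -/

set_option autoImplicit false

namespace Pool.Agent.Helper95.VIS

open Finset Matrix Pool.Agent.Helper95.LF

variable {κ : Type} [Fintype κ]

theorem inv_mulVec [DecidableEq κ] {P : Matrix κ κ ℝ} (h : P.det ≠ 0) (x : κ → ℝ) :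
    P *ᵥ (P⁻¹ *ᵥ x) = x := by
  rw [Matrix.mulVec_mulVec, Matrix.mul_nonsing_inv _ (Ne.isUnit h), Matrix.one_mulVec]

theorem pd_conj [DecidableEq κ] {A P : Matrix κ κ ℝ} (hA : PdM A) (hP : P.det ≠ 0) :
    PdM (P.transpose * A * P) := by
  refine ⟨?_, fun x hx => ?_⟩
  · have hs : A.transpose = A := hA.1
    show (P.transpose * A * P).transpose = _
    rw [Matrix.transpose_mul, Matrix.transpose_mul, Matrix.transpose_transpose, hs, Matrix.mul_assoc]
  · rw [dv_conj]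
    apply hA.2
    intro h0
    apply hx
    have h1 : P⁻¹ *ᵥ (P *ᵥ x) = x := by
      rw [Matrix.mulVec_mulVec, Matrix.nonsing_inv_mul _ (Ne.isUnit hP), Matrix.one_mulVec]
    rw [← h1, h0, Matrix.mulVec_zero]

theorem near_conj {A B : Matrix κ κ ℝ} {L : ℝ} (h : NearM L A B) (P : Matrix κ κ ℝ) {c : ℝ} (hc : 0 ≤ c) :
    NearM L (c • (P.transpose * A * P)) (c • (P.transpose * B * P)) := by
  constructor
  · intro x
    rw [dv_smul, dv_smul, dv_conj, dv_conj]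
    have := mul_le_mul_of_nonneg_left (h.1 (P *ᵥ x)) hc
    linarith
  · intro x
    rw [dv_smul, dv_smul, dv_conj, dv_conj]
    have := mul_le_mul_of_nonneg_left (h.2 (P *ᵥ x)) hc
    linarith

/-- THE COVERING BOUND of a locally finite rounding -/
theorem cover_card (κ : Type) [Fintype κ] : ∃ C : ℝ, 0 ≤ C ∧
    ∀ (L : ℝ), 1 ≤ L → ∀ (N : ℕ) (Q : Matrix κ κ ℝ → Matrix κ κ ℝ),
      (∀ A, PdM A → ∃ S : Finset (Matrix κ κ ℝ), S.card ≤ N ∧ ∀ A', PdM A' → NearM L A A' → Q A' ∈ S) →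
      ∀ A, PdM A → ∀ K : ℝ, 0 ≤ K → ∃ S : Finset (Matrix κ κ ℝ), (S.card : ℝ) ≤ N * Real.exp (C * (2 * K + 1)) ∧
        ∀ A', PdM A' → NearM K A A' → Q A' ∈ S := by
  classical
  obtain ⟨C, hC, hv⟩ := values_card κ
  refine ⟨C, hC, fun L hL N Q hQ A hA K hK => ?_⟩
  obtain ⟨P, hAP, hP⟩ := exists_factor A hA
  have hPi : (P⁻¹).det ≠ 0 := by
    intro h0
    have h1 : P.det * (P⁻¹).det = 1 := by
      rw [← Matrix.det_mul, Matrix.mul_nonsing_inv _ (Ne.isUnit hP), Matrix.det_one]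
    rw [h0, mul_zero] at h1
    exact zero_ne_one h1
  have he : 0 < Real.exp (-K) := Real.exp_pos _
  -- the rounding in the coordinates of `A`
  obtain ⟨S, hS, hS2⟩ := hv L hL N (fun B => Q (Real.exp (-K) • (P.transpose * B * P))) (by
    intro B hB
    obtain ⟨S, h1, h2⟩ := hQ _ ((pd_conj hB hP).smul he)
    exact ⟨S, h1, fun B' hB' hn => h2 _ ((pd_conj hB' hP).smul he) (near_conj hn P he.le)⟩) (2 * K) (by linarith)
  refine ⟨S, hS, fun A' hA' hn => ?_⟩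
  set B : Matrix κ κ ℝ := Real.exp K • ((P⁻¹).transpose * A' * P⁻¹) with hB
  have e1 : Real.exp (-K) • (P.transpose * B * P) = A' := by
    have h1 : P.transpose * (P⁻¹).transpose = 1 := by
      rw [← Matrix.transpose_mul, Matrix.nonsing_inv_mul _ (Ne.isUnit hP), Matrix.transpose_one]
    have h2 : P⁻¹ * P = 1 := Matrix.nonsing_inv_mul _ (Ne.isUnit hP)
    rw [hB, Matrix.mul_smul, Matrix.smul_mul, smul_smul, ← Real.exp_add, neg_add_cancel, Real.exp_zero, one_smul]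
    calc P.transpose * ((P⁻¹).transpose * A' * P⁻¹) * P =
        (P.transpose * (P⁻¹).transpose) * A' * (P⁻¹ * P) := by simp only [Matrix.mul_assoc]
      _ = A' := by rw [h1, h2, Matrix.one_mul, Matrix.mul_one]
  have hval : ∀ x : κ → ℝ, x ⬝ᵥ (B *ᵥ x) = Real.exp K * ((P⁻¹ *ᵥ x) ⬝ᵥ (A' *ᵥ (P⁻¹ *ᵥ x))) := fun x => by
    rw [hB, dv_smul, dv_conj]
  have hval2 : ∀ x : κ → ℝ, (P⁻¹ *ᵥ x) ⬝ᵥ (A *ᵥ (P⁻¹ *ᵥ x)) = x ⬝ᵥ x := fun x => by
    have h1 : A = P.transpose * 1 * P := by rw [Matrix.mul_one]; exact hAP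
    rw [h1, dv_conj, inv_mulVec hP, Matrix.one_mulVec]
  have hBs : B.IsSymm := ((pd_conj hA' hPi).smul (Real.exp_pos K)).1
  have h3 := hS2 B hBs (fun x => by
    rw [hval, ← hval2 x]
    have h4 := hn.1 (P⁻¹ *ᵥ x)
    exact h4) (fun x => by
    rw [hval, ← hval2 x]
    have h4 := mul_le_mul_of_nonneg_left (hn.2 (P⁻¹ *ᵥ x)) (Real.exp_pos K).le
    refine h4.trans (le_of_eq ?_)
    rw [← mul_assoc, ← Real.exp_add]
    congr 2
    ring)
  have h4 : Q (Real.exp (-K) • (P.transpose * B * P)) ∈ S := h3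
  rwa [e1] at h4

/-- THE ROUNDING OF FORMS -/
theorem round_cover (κ : Type) [Fintype κ] : ∃ C : ℝ, 1 ≤ C ∧ ∀ L : ℝ, 1 ≤ L →
    ∃ Q : Matrix κ κ ℝ → Matrix κ κ ℝ,
      (∀ A, PdM A → PdM (Q A) ∧ NearM (C * L) A (Q A)) ∧
      ∀ A, PdM A → ∀ L' : ℝ, L ≤ L' → ∃ S : Finset (Matrix κ κ ℝ), (S.card : ℝ) ≤ Real.exp (C * L') ∧
        ∀ A', PdM A' → NearM L' A A' → Q A' ∈ S := by
  obtain ⟨C0, N, hC0, h⟩ := round_mat κ
  obtain ⟨C1, hC1, h1⟩ := cover_card κ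
  have hlog : 0 ≤ Real.log ((N : ℝ) + 1) := Real.log_nonneg (by
    have : (0 : ℝ) ≤ N := Nat.cast_nonneg _
    linarith)
  refine ⟨C0 + 3 * C1 + Real.log ((N : ℝ) + 1), by linarith, fun L hL => ?_⟩
  obtain ⟨Q, hQ1, hQ2⟩ := h L hL
  refine ⟨Q, fun A hA => ⟨(hQ1 A hA).1, ?_⟩, fun A hA L' hL' => ?_⟩
  · obtain ⟨-, hn⟩ := hQ1 A hA
    have h0 : Real.exp (C0 * L) ≤ Real.exp ((C0 + 3 * C1 + Real.log ((N : ℝ) + 1)) * L) := by
      apply Real.exp_le_exp.mpr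
      have : 0 ≤ (3 * C1 + Real.log ((N : ℝ) + 1)) * L := mul_nonneg (by linarith) (by linarith)
      nlinarith
    exact ⟨fun x => (hn.1 x).trans (mul_le_mul_of_nonneg_right h0 ((hQ1 A hA).1.nonneg x)),
      fun x => (hn.2 x).trans (mul_le_mul_of_nonneg_right h0 (hA.nonneg x))⟩
  · obtain ⟨S, hS, hS2⟩ := h1 L hL N Q hQ2 A hA L' (by linarith)
    refine ⟨S, hS.trans ?_, hS2⟩
    have h2 : (N : ℝ) ≤ Real.exp (Real.log ((N : ℝ) + 1)) := by
      rw [Real.exp_log (by positivity)]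
      linarith
    have h3 : (N : ℝ) * Real.exp (C1 * (2 * L' + 1)) ≤
        Real.exp (Real.log ((N : ℝ) + 1)) * Real.exp (C1 * (2 * L' + 1)) :=
      mul_le_mul_of_nonneg_right h2 (Real.exp_pos _).le
    refine h3.trans ?_
    rw [← Real.exp_add]
    apply Real.exp_le_exp.mpr
    have h4 : Real.log ((N : ℝ) + 1) ≤ Real.log ((N : ℝ) + 1) * L' := by nlinarith
    have h5 : C1 * (2 * L' + 1) ≤ C1 * (3 * L') := mul_le_mul_of_nonneg_left (by linarith) hC1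
    have h6 : 0 ≤ C0 * L' := mul_nonneg (by linarith) (by linarith)
    nlinarith

end Pool.Agent.Helper95.VIS
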