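import Pool.Agent.Helper95.VIS.Mcs

/-! VISO for every member of a class of pairs. -/

set_option autoImplicit false

namespace Pool.Agent.Helper95.VIS

open Finset Filter Topology Matrix Pool.Agent.Helper69.RK Pool.Agent.Helper31.EC Pool.Agent.Helper31.EC.Sp
open Pool.Agent.Helper40.EL Pool.Agent.Helper49.MD Pool.Agent.Helper52.GF Pool.Agent.Helper89.LX
open Pool.Agent.Helper33.LIT Pool.Agent.Helper66.NJ Pool.Agent.Helper49.KL Pool.Agent.Helper84.MT
open Pool.Agent.Helper3.LF (Mon)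
open Pool.Agent.Helper36.AM
open Pool.Agent.Helper47.FN (KR lftR obR lftR_ob)
open Pool.Agent.Helper87.NSL (cndR KnS)
open Pool.Agent.Helper89.RAK (DomJ)

noncomputable section

variable {M : ℕ} {E : ℕ → ℕ} {ι : Type} {S : Sp}
variable {TT : ∀ S : Sp, MSys S M E ι → (∀ k, Setoid (S.F k).Ω) → Prop} {D : ℕ} {c c0 : ℝ}

theorem mcl_bd {S : Sp} {x : (KX (KR M ι) Unit).Ob S} (hx : mcl TT D c c0 S x) : bdX (KR M ι) Unit c0 S x := by
  obtain ⟨s, R, X, h1, h2, h3, h4⟩ := hx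
  intro j
  filter_upwards [h1, h4] with k a b ω hω
  have e1 : obY x j k = X k := by
    unfold obY
    rw [← a]
    rfl
  rw [e1]
  exact b ω hω

theorem mcl_lft (hT : Cls (lftR TT)) {S : Sp} {x : (KR M ι).Ob S}
    (hx : (kxo (KR M ι) Unit).img (mcl TT D c c0) S x) : lftR TT S x := by
  obtain ⟨x', ⟨s, R, X, h1, h2, h3, h4⟩, h5⟩ := hx
  refine hT.ev S (obR s R) x ?_ (lftR_ob h2)
  filter_upwards [h1, h5] with k a b
  have h6 : (kxo (KR M ι) Unit).o x' k = obR s R k := by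
    show (kxo (KR M ι) Unit).f (S.F k) (x' k) = _
    rw [← a]
    rfl
  exact h6.symm.trans b

/-- the data of a member of the class with minimal carriers -/
theorem mcl_data {S : Sp} {x : (KX (KR M ι) Unit).Ob S} (hx : mcl TT D c c0 S x) :
    ∃ (s : MSys S M E ι) (R X : ∀ k, Setoid (S.F k).Ω), TT S s R ∧ MinC (gaq s.Q D) R (cndR s R c) X ∧
      (∀ᶠ k in UF, obR s R k = (kxo (KR M ι) Unit).o x k) ∧
      ∀ᶠ k in UF, (kxp (KR M ι) ()).pt x k = fc (X k) := by
  obtain ⟨s, R, X, h1, h2, h3, h4⟩ := hx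
  refine ⟨s, R, X, h2, h3, ?_, ?_⟩
  · filter_upwards [h1] with k a
    show _ = (kxo (KR M ι) Unit).f (S.F k) (x k)
    rw [← a]
    rfl
  · filter_upwards [h1] with k a
    show fc ((kxp (KR M ι) ()).X (S.F k) (x k)) = _
    rw [← a]
    rfl

theorem mcl_uniq [Finite ι] {S : Sp} {x y : (KX (KR M ι) Unit).Ob S} (hx : mcl TT D c c0 S x)
    (hy : mcl TT D c c0 S y)
    (e : ∀ᶠ k in UF, (kxo (KR M ι) Unit).o x k = (kxo (KR M ι) Unit).o y k) :
    Eqn ((kxp (KR M ι) ()).pt x) ((kxp (KR M ι) ()).pt y) := by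
  obtain ⟨s, R, X, -, a2, a3, a4⟩ := mcl_data hx
  obtain ⟨s', R', X', -, b2, b3, b4⟩ := mcl_data hy
  have e1 : ∀ᶠ k in UF, obR s' R' k = obR s R k := by
    filter_upwards [a3, b3, e] with k u v w
    rw [u, v, w]
  have h1 := minC_data e1 b2
  exact (Eqn.of_ev a4).trans (Eqn.trans ⟨a2.uniq _ h1, h1.uniq _ a2⟩ (Eqn.of_ev b4).symm)

/-- VISO (ordinary VIS) FOR EVERY MEMBER of a class of pairs: in every class inside `TT` there is a member with an
admissible K-form which dominates an optimal one and whose label has no leak at the cells of level `e` of the point; then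
the minimal carriers of ALL members of `TT` are known to the cells of level `e` (up to `o(n)` bits) -/
theorem viso [Finite ι] (hT : Cls (lftR TT)) (hO : OptCl TT D c) (e : ℝ)
    (hin : ∀ C' : (KR M ι).Pd, Cls C' → (∀ S x, C' S x → lftR TT S x) →
      ∃ (S : Sp) (s : MSys S M E ι) (R : ∀ k, Setoid (S.F k).Ω) (x y : ∀ k, FD (S.F k) (Mon M D)), TT S s R ∧
        C' S (obR s R) ∧ (gaq s.Q D).OptfK (LC.kz fun k => fc (R k)) (cndR s R c) x ∧
        (gaq s.Q D).AdfK (LC.kz fun k => fc (R k)) (cndR s R c) y ∧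
        Nul S (fun k => (y k).l.leak (pcr s.Q e k)) ∧ DomJ y x) :
    ∀ (S : Sp) (s : MSys S M E ι) (R : ∀ k, Setoid (S.F k).Ω), TT S s R → ∀ X : ∀ k, Setoid (S.F k).Ω,
      MinC (gaq s.Q D) R (cndR s R c) X → Nul S (fun k => h (fc (X k)) (pcr s.Q e k)) := by
  set c0 := c0r (Mon M D) (2 * D + 1 + 1) with hc0
  have h00 : 0 ≤ c0 := c0r_nonneg _ (by positivity)
  have hC : Cls (mcl TT D c c0) := mcl_cls hT hO le_rfl
  have main := viso_abs (K := KR M ι) hC h00 (fun S x hx => mcl_bd hx) (fun S x y hx hy e => mcl_uniq hx hy e)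
    (puL M ι e) (by
      intro C' hC' hsub
      obtain ⟨S, s, R, x, y, h1, h2, h3, h4, h5, h6⟩ := hin C' hC' fun S x hx => mcl_lft hT (hsub S x hx)
      obtain ⟨X, h7, h8⟩ := exists_minC_bd (gaq s.Q D) (cndR s R c) R
      refine ⟨S, obX (obR s R) (fun _ => X), ⟨s, R, X, Eventually.of_forall fun _ => rfl, h1, h7, h8⟩, h2, ?_⟩
      have h9 : (gaq s.Q D).OptfK (LC.kz fun k => fc (R k)) (cndR s R c) y :=
        ⟨h4, fun z hz => (h3.2 z hz).trans (domJ_sc_le _ h6 h4.1 h3.1.1)⟩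
      exact h7.vis _ h9 h5)
  intro S s R hs X hX
  obtain ⟨X', h7, h8⟩ := exists_minC_bd (gaq s.Q D) (cndR s R c) R
  have h9 : Nul S (fun k => h (fc (X' k)) (pcr s.Q e k)) :=
    main S (obX (obR s R) (fun _ => X')) ⟨s, R, X', Eventually.of_forall fun _ => rfl, hs, h7, h8⟩
  exact Nul.h_tri (hX.uniq _ h7) h9

end

end Pool.Agent.Helper95.VIS
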